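import Pool.Graph.R_pool_sql_team_seeded_63374d34.N879.QM.Eul

set_option autoImplicit false

/-!
Project QF: a majorant, independent of the shifts, of the coefficients of `A_k`, with the weight `m^a`, `a < 1/2`.
-/

namespace Pool.Agent.H681.QF.E

open Complex Filter Topology
open scoped BigOperators
open Pool.Agent.N879.QM Pool.Agent.N879.QM.Eul

noncomputable section

/-- the bounds at the prime powers -/
def bd (k p : ℕ) : ℕ → ℝ
  | 0 => 1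
  | 1 => 3 ^ k * ((p : ℝ)⁻¹) ^ 2
  | v + 2 => Dk k (v + 2) * ((p : ℝ)⁻¹) ^ (v + 2)

theorem bd_nonneg (k p v : ℕ) : 0 ≤ bd k p v := by
  rcases v with - | - | v
  · exact zero_le_one
  · unfold bd; positivity
  · unfold bd
    have := Dk_nonneg k (v + 2)
    positivity

/-- the majorant -/
def U (k m : ℕ) : ℝ := if m = 0 then 0 else m.factorization.prod (bd k)

theorem U_nonneg (k m : ℕ) : 0 ≤ U k m := by
  unfold U
  split_ifs
  · exact le_rfl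
  · exact Finset.prod_nonneg fun p _ => bd_nonneg k p _

theorem U_one (k : ℕ) : U k 1 = 1 := by
  unfold U
  simp

theorem U_mul (k : ℕ) {m n : ℕ} (h : m.Coprime n) : U k (m * n) = U k m * U k n := by
  unfold U
  rcases eq_or_ne m 0 with hm | hm
  · simp [hm]
  rcases eq_or_ne n 0 with hn | hn
  · simp [hn]
  rw [if_neg (mul_ne_zero hm hn), if_neg hm, if_neg hn, Nat.factorization_mul_of_coprime h,
    Finsupp.prod_add_index_of_disjoint (Nat.Coprime.disjoint_primeFactors h)]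

theorem U_pow (k : ℕ) {p : ℕ} (hp : p.Prime) (v : ℕ) : U k (p ^ v) = bd k p v := by
  unfold U
  rw [if_neg (pow_ne_zero v hp.ne_zero), Nat.Prime.factorization_pow hp, Finsupp.prod_single_index]
  rfl

theorem al_le_U {k : ℕ} (β : Fin k → ℝ) (m : ℕ) : ‖al β m‖ ≤ U k m := by
  rcases eq_or_ne m 0 with hm | hm
  · subst hm
    simp [U]
  have h := (al_mult β).multiplicative_factorization (al β) hm
  rw [h]
  unfold U
  rw [if_neg hm]
  unfold Finsupp.prod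
  rw [norm_prod]
  refine Finset.prod_le_prod (fun _ _ => norm_nonneg _) fun p hp => ?_
  have hpp : p.Prime := Nat.prime_of_mem_primeFactors hp
  show ‖al β (p ^ m.factorization p)‖ ≤ bd k p (m.factorization p)
  rcases m.factorization p with - | - | v
  · rw [pow_zero, (al_mult β).map_one]
    simp [bd]
  · exact al_prime_bd β hpp
  · exact al_bd β hpp (v + 2)

/-- `2 ^ (-1/2)` -/
def q1 : ℝ := (2 : ℝ) ^ (-(1 / 2) : ℝ)

theorem q1_pos : 0 < q1 := by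
  unfold q1
  positivity

theorem q1_lt : q1 < 1 :=
  Real.rpow_lt_one_of_one_lt_of_neg one_lt_two (by norm_num)

/-- the bounds for the terms of the local series -/
def ek1 (k : ℕ) : ℕ → ℝ
  | 0 => 3 ^ k
  | u + 1 => Dk k (u + 2) * q1 ^ u

theorem ek1_nonneg (k u : ℕ) : 0 ≤ ek1 k u := by
  cases u with
  | zero => unfold ek1; positivity
  | succ u =>
    unfold ek1
    have := Dk_nonneg k (u + 2)
    have := q1_pos
    positivity

theorem ek1_summable (k : ℕ) : Summable (ek1 k) := by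
  rw [← summable_nat_add_iff 1]
  have h1 : Summable fun n : ℕ => (n : ℝ) ^ (k + 1) * q1 ^ n :=
    summable_pow_mul_geometric_of_norm_lt_one (k + 1)
      (by rw [Real.norm_of_nonneg q1_pos.le]; exact q1_lt)
  have h2 := ((summable_nat_add_iff 3).2 h1).mul_left
    (2 ^ Fintype.card (Pr k) * 2 ^ k * (q1 ^ 3)⁻¹)
  refine Summable.of_nonneg_of_le (fun u => ek1_nonneg k (u + 1)) (fun u => ?_) h2
  show Dk k (u + 2) * q1 ^ u ≤ _
  unfold Dk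
  have hq := q1_pos
  have e : (2 ^ Fintype.card (Pr k) * 2 ^ k * (q1 ^ 3)⁻¹) *
      ((((u + 3 : ℕ) : ℝ)) ^ (k + 1) * q1 ^ (u + 3)) =
      ((u : ℝ) + 3) * ((2 * ((u : ℝ) + 3)) ^ k * 2 ^ Fintype.card (Pr k)) * q1 ^ u := by
    rw [mul_pow, pow_add q1 u 3]
    push_cast
    field_simp
    ring
  rw [e]
  have h3 : ((u + 2 : ℕ) : ℝ) + 1 = (u : ℝ) + 3 := by push_cast; ring
  have h4 : (2 * ((u + 2 : ℕ) : ℝ) + 1) ≤ 2 * ((u : ℝ) + 3) := by push_cast; linarith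
  rw [h3]
  gcongr

/-- the sum of the bounds -/
def CE1 (k : ℕ) : ℝ := ∑' u, ek1 k u

theorem CE1_nonneg (k : ℕ) : 0 ≤ CE1 k := tsum_nonneg (ek1_nonneg k)

/-- with weights -/
def WU (k : ℕ) (a : ℝ) (m : ℕ) : ℝ := U k m * (m : ℝ) ^ a

theorem WU_nonneg (k : ℕ) (a : ℝ) (m : ℕ) : 0 ≤ WU k a m := by
  unfold WU
  have := U_nonneg k m
  positivity

theorem WU_one (k : ℕ) (a : ℝ) : WU k a 1 = 1 := by
  unfold WU
  rw [U_one]
  simp

theorem WU_mul (k : ℕ) (a : ℝ) {m n : ℕ} (h : m.Coprime n) : WU k a (m * n) = WU k a m * WU k a n := by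
  unfold WU
  rw [U_mul k h, Nat.cast_mul, Real.mul_rpow (Nat.cast_nonneg m) (Nat.cast_nonneg n)]
  ring

theorem WU_bd (k : ℕ) {δ : ℝ} (hδ0 : 0 < δ) (hδ : δ ≤ 1 / 4) {p : ℕ} (hp : p.Prime) (u : ℕ) :
    WU k (1 / 2 - δ) (p ^ (u + 1)) ≤ (p : ℝ) ^ (-(1 + 2 * δ) : ℝ) * ek1 k u := by
  have hp0 : (0 : ℝ) < p := by exact_mod_cast hp.pos
  have hp1 : (1 : ℝ) ≤ p := by exact_mod_cast hp.one_lt.le
  have hp2 : (2 : ℝ) ≤ p := by exact_mod_cast hp.two_le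
  have hinv : ((p : ℝ)⁻¹) = (p : ℝ) ^ (-1 : ℝ) := (Real.rpow_neg_one _).symm
  unfold WU
  rw [U_pow k hp]
  cases u with
  | zero =>
    show (3 ^ k * ((p : ℝ)⁻¹) ^ 2) * ((p ^ (0 + 1) : ℕ) : ℝ) ^ (1 / 2 - δ) ≤ (p : ℝ) ^ (-(1 + 2 * δ) : ℝ) * 3 ^ k
    have h2 : ((p ^ (0 + 1) : ℕ) : ℝ) ^ (1 / 2 - δ) = (p : ℝ) ^ (1 / 2 - δ) := by simp
    rw [h2]
    have h3 : ((p : ℝ)⁻¹) ^ 2 * (p : ℝ) ^ (1 / 2 - δ) ≤ (p : ℝ) ^ (-(1 + 2 * δ) : ℝ) := by
      rw [hinv, ← Real.rpow_natCast, ← Real.rpow_mul hp0.le, ← Real.rpow_add hp0]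
      refine Real.rpow_le_rpow_of_exponent_le hp1 ?_
      push_cast
      linarith
    calc (3 ^ k * ((p : ℝ)⁻¹) ^ 2) * (p : ℝ) ^ (1 / 2 - δ)
        = 3 ^ k * (((p : ℝ)⁻¹) ^ 2 * (p : ℝ) ^ (1 / 2 - δ)) := by ring
      _ ≤ 3 ^ k * (p : ℝ) ^ (-(1 + 2 * δ) : ℝ) := by gcongr
      _ = _ := mul_comm _ _
  | succ u =>
    show (Dk k (u + 2) * ((p : ℝ)⁻¹) ^ (u + 2)) * ((p ^ (u + 2) : ℕ) : ℝ) ^ (1 / 2 - δ) ≤
      (p : ℝ) ^ (-(1 + 2 * δ) : ℝ) * (Dk k (u + 2) * q1 ^ u)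
    have h2 : ((p : ℝ)⁻¹) ^ (u + 2) * ((p ^ (u + 2) : ℕ) : ℝ) ^ (1 / 2 - δ) =
        (p : ℝ) ^ (-(1 + 2 * δ) : ℝ) * ((p : ℝ) ^ (-(1 / 2 + δ) : ℝ)) ^ u := by
      rw [hinv, Nat.cast_pow, ← Real.rpow_natCast, ← Real.rpow_natCast, ← Real.rpow_natCast,
        ← Real.rpow_mul hp0.le, ← Real.rpow_mul hp0.le, ← Real.rpow_mul hp0.le,
        ← Real.rpow_add hp0, ← Real.rpow_add hp0]
      congr 1
      push_cast
      ring
    have h3 : ((p : ℝ) ^ (-(1 / 2 + δ) : ℝ)) ^ u ≤ q1 ^ u := by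
      refine pow_le_pow_left₀ (by positivity) ?_ u
      calc (p : ℝ) ^ (-(1 / 2 + δ) : ℝ) ≤ (p : ℝ) ^ (-(1 / 2) : ℝ) :=
            Real.rpow_le_rpow_of_exponent_le hp1 (by linarith)
        _ ≤ q1 := Real.rpow_le_rpow_of_nonpos two_pos hp2 (by norm_num)
    have hD := Dk_nonneg k (u + 2)
    calc (Dk k (u + 2) * ((p : ℝ)⁻¹) ^ (u + 2)) * ((p ^ (u + 2) : ℕ) : ℝ) ^ (1 / 2 - δ)
        = Dk k (u + 2) * ((p : ℝ) ^ (-(1 + 2 * δ) : ℝ) * ((p : ℝ) ^ (-(1 / 2 + δ) : ℝ)) ^ u) := by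
          rw [mul_assoc, h2]
      _ ≤ Dk k (u + 2) * ((p : ℝ) ^ (-(1 + 2 * δ) : ℝ) * q1 ^ u) := by gcongr
      _ = _ := by ring

theorem WU_local (k : ℕ) {δ : ℝ} (hδ0 : 0 < δ) (hδ : δ ≤ 1 / 4) {p : ℕ} (hp : p.Prime) :
    Summable (fun v => WU k (1 / 2 - δ) (p ^ v)) ∧
      ∑' v, WU k (1 / 2 - δ) (p ^ v) ≤ 1 + CE1 k * (p : ℝ) ^ (-(1 + 2 * δ) : ℝ) := by
  have h1 : Summable fun v => WU k (1 / 2 - δ) (p ^ (v + 1)) :=
    Summable.of_nonneg_of_le (fun v => WU_nonneg k _ _) (fun v => WU_bd k hδ0 hδ hp v)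
      ((ek1_summable k).mul_left _)
  have h2 : Summable fun v => WU k (1 / 2 - δ) (p ^ v) :=
    (summable_nat_add_iff (f := fun v => WU k (1 / 2 - δ) (p ^ v)) 1).1 h1
  refine ⟨h2, ?_⟩
  rw [h2.tsum_eq_zero_add, pow_zero, WU_one]
  have h3 := Summable.tsum_le_tsum (fun v => WU_bd k hδ0 hδ hp v) h1 ((ek1_summable k).mul_left _)
  rw [tsum_mul_left] at h3
  have e : CE1 k = ∑' u, ek1 k u := rfl
  rw [e]
  linarith

/-- the constant -/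
def CC1 (k : ℕ) (δ : ℝ) : ℝ := Real.exp (CE1 k * ∑' n : ℕ, (n : ℝ) ^ (-(1 + 2 * δ) : ℝ))

theorem CC1_pos (k : ℕ) (δ : ℝ) : 0 < CC1 k δ := Real.exp_pos _

theorem WU_sum (k : ℕ) {δ : ℝ} (hδ0 : 0 < δ) (hδ : δ ≤ 1 / 4) (S : Finset ℕ) :
    ∑ m ∈ S, WU k (1 / 2 - δ) m ≤ CC1 k δ := by
  classical
  set N : ℕ := S.sup id + 1 with hN
  have hz : Summable fun n : ℕ => (n : ℝ) ^ (-(1 + 2 * δ) : ℝ) :=
    Real.summable_nat_rpow.2 (by linarith)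
  have h1 := (EulerProduct.summable_and_hasSum_smoothNumbers_prod_primesBelow_tsum
    (f := WU k (1 / 2 - δ)) (WU_one k _) (fun {m n} h => WU_mul k _ h)
    (fun {p} hp => (WU_local k hδ0 hδ hp).1.norm) N).2
  have h2 : HasSum ((N.smoothNumbers : Set ℕ).indicator (WU k (1 / 2 - δ)))
      (∏ p ∈ N.primesBelow, ∑' v, WU k (1 / 2 - δ) (p ^ v)) :=
    (hasSum_subtype_iff_indicator (f := WU k (1 / 2 - δ)) (s := (N.smoothNumbers : Set ℕ))).1 h1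
  have h0 : ∀ i, 0 ≤ (N.smoothNumbers : Set ℕ).indicator (WU k (1 / 2 - δ)) i := fun i =>
    Set.indicator_nonneg (fun m _ => WU_nonneg k _ m) i
  have h3 := sum_le_hasSum S (fun i _ => h0 i) h2
  have h4 : ∑ m ∈ S, WU k (1 / 2 - δ) m ≤
      ∑ m ∈ S, (N.smoothNumbers : Set ℕ).indicator (WU k (1 / 2 - δ)) m := by
    refine Finset.sum_le_sum fun m hm => ?_
    rcases Nat.eq_zero_or_pos m with h | h
    · subst h
      have : WU k (1 / 2 - δ) 0 = 0 := by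
        unfold WU U
        simp
      rw [this]
      exact h0 0
    · rw [Set.indicator_of_mem]
      refine Nat.mem_smoothNumbers_of_lt h ?_
      have : m ≤ S.sup id := Finset.le_sup (f := id) hm
      omega
  refine h4.trans (h3.trans ?_)
  have hpr : ∀ p ∈ N.primesBelow, p.Prime := fun p hp => Nat.prime_of_mem_primesBelow hp
  calc ∏ p ∈ N.primesBelow, ∑' v, WU k (1 / 2 - δ) (p ^ v)
      ≤ ∏ p ∈ N.primesBelow, Real.exp (CE1 k * (p : ℝ) ^ (-(1 + 2 * δ) : ℝ)) := by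
        refine Finset.prod_le_prod (fun p hp => tsum_nonneg fun v => WU_nonneg k _ _) fun p hp => ?_
        refine (WU_local k hδ0 hδ (hpr p hp)).2.trans ?_
        have := Real.add_one_le_exp (CE1 k * (p : ℝ) ^ (-(1 + 2 * δ) : ℝ))
        linarith
    _ = Real.exp (∑ p ∈ N.primesBelow, CE1 k * (p : ℝ) ^ (-(1 + 2 * δ) : ℝ)) :=
        (Real.exp_sum _ _).symm
    _ ≤ CC1 k δ := by
        unfold CC1
        refine Real.exp_le_exp.2 ?_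
        rw [← Finset.mul_sum]
        exact mul_le_mul_of_nonneg_left (hz.sum_le_tsum _ fun n _ => by positivity) (CE1_nonneg k)

/-- the tail of the coefficients -/
theorem al_tail {k : ℕ} {δ : ℝ} (hδ0 : 0 < δ) (hδ : δ ≤ 1 / 4) (β : Fin k → ℝ) {M : ℕ} (hM : 1 ≤ M) :
    ‖Ak (im β) - ∑ m ∈ Finset.Icc 1 M, al β m‖ ≤ CC1 k δ * (M : ℝ) ^ (-(1 / 2 - δ) : ℝ) := by
  classical
  have hs : Summable fun m => al β m := (al_summable β).of_norm
  have h1 := hs.sum_add_tsum_compl (s := Finset.Icc 1 M)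
  rw [Ak_eq, ← h1, add_sub_cancel_left]
  have hM0 : (0 : ℝ) < M := by exact_mod_cast hM
  have hWs : Summable (WU k (1 / 2 - δ)) :=
    summable_of_sum_le (WU_nonneg k _) (WU_sum k hδ0 hδ)
  have hWt : ∑' m, WU k (1 / 2 - δ) m ≤ CC1 k δ := hWs.tsum_le_of_sum_le (WU_sum k hδ0 hδ)
  have h2 : ∀ m : ((Finset.Icc 1 M : Finset ℕ) : Set ℕ)ᶜ.Elem, ‖al β m‖ ≤
      (M : ℝ) ^ (-(1 / 2 - δ) : ℝ) * WU k (1 / 2 - δ) m := by
    rintro ⟨m, hm⟩
    simp only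
    rcases Nat.eq_zero_or_pos m with h | h
    · subst h
      have : WU k (1 / 2 - δ) 0 = 0 := by
        unfold WU U
        simp
      rw [this]
      simp
    · have h3 : M < m := by
        by_contra h4
        exact hm (Finset.mem_coe.2 (Finset.mem_Icc.2 ⟨h, by omega⟩))
      have h4 : (M : ℝ) ^ (1 / 2 - δ) ≤ (m : ℝ) ^ (1 / 2 - δ) :=
        Real.rpow_le_rpow hM0.le (by exact_mod_cast h3.le) (by linarith)
      unfold WU
      rw [Real.rpow_neg hM0.le]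
      have h5 : 0 < (M : ℝ) ^ (1 / 2 - δ) := Real.rpow_pos_of_pos hM0 _
      rw [inv_mul_eq_div, le_div_iff₀ h5]
      exact mul_le_mul (al_le_U β m) h4 h5.le (U_nonneg k m)
  have h3 : Summable fun m : ((Finset.Icc 1 M : Finset ℕ) : Set ℕ)ᶜ.Elem => ‖al β m‖ :=
    (al_summable β).subtype _
  have h4 : Summable fun m : ((Finset.Icc 1 M : Finset ℕ) : Set ℕ)ᶜ.Elem => WU k (1 / 2 - δ) m :=
    hWs.subtype _
  have h6 : ∑' m : ((Finset.Icc 1 M : Finset ℕ) : Set ℕ)ᶜ.Elem, WU k (1 / 2 - δ) m ≤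
      ∑' m, WU k (1 / 2 - δ) m :=
    Summable.tsum_subtype_le (WU k (1 / 2 - δ)) _ (WU_nonneg k _) hWs
  calc ‖∑' m : ((Finset.Icc 1 M : Finset ℕ) : Set ℕ)ᶜ.Elem, al β m‖
      ≤ ∑' m : ((Finset.Icc 1 M : Finset ℕ) : Set ℕ)ᶜ.Elem, ‖al β m‖ :=
        norm_tsum_le_tsum_norm h3
    _ ≤ ∑' m : ((Finset.Icc 1 M : Finset ℕ) : Set ℕ)ᶜ.Elem,
          (M : ℝ) ^ (-(1 / 2 - δ) : ℝ) * WU k (1 / 2 - δ) m := Summable.tsum_le_tsum h2 h3 (h4.mul_left _)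
    _ = (M : ℝ) ^ (-(1 / 2 - δ) : ℝ) *
          ∑' m : ((Finset.Icc 1 M : Finset ℕ) : Set ℕ)ᶜ.Elem, WU k (1 / 2 - δ) m := tsum_mul_left
    _ ≤ (M : ℝ) ^ (-(1 / 2 - δ) : ℝ) * CC1 k δ :=
        mul_le_mul_of_nonneg_left (h6.trans hWt) (by positivity)
    _ = CC1 k δ * (M : ℝ) ^ (-(1 / 2 - δ) : ℝ) := mul_comm _ _

end

end Pool.Agent.H681.QF.E
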