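import Pool.Agent.H681.QF.Tail
import Pool.Agent.H681.QF.Fe
import Pool.Graph.R_pool_sql_team_seeded_1acbe0a2.Y752.QF.Final3

set_option autoImplicit false

/-!
Project QF: the box sum and the prediction, outside of a small set.
-/

namespace Pool.Agent.H681.QF

open MeasureTheory Set Filter Complex Topology
open Pool.Agent.TH612.GS (mP)
open Pool.Agent.Y752.QF
open Pool.Agent.Y532.QF

noncomputable section

variable {k : ℕ}

theorem SN_eq (Y : ℕ) (β : Fin k → ℝ) : Pool.Agent.N879.QM.SN k Y β = DS Y β := by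
  unfold Pool.Agent.N879.QM.SN DS
  unfold Pool.Agent.N879.QM.tup
  refine Finset.sum_congr rfl fun n _ => ?_
  split_ifs with h
  · rfl
  · simp

theorem prod_Ed (f : Fin k × Fin k → ℂ) : ∏ e ∈ Ed k, f e = ∏ r : Pool.Agent.N879.QM.Pr k, f r.1 := by
  classical
  unfold Ed
  rw [Finset.prod_subtype (Finset.univ.filter fun e : Fin k × Fin k => e.1 ≤ e.2) (p := fun e => e.1 ≤ e.2)]
  intro x
  simp

theorem MT_eq (β : Fin k → ℝ) : Pool.Agent.N879.QM.MT (Pool.Agent.N879.QM.im β) = Mt β := by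
  unfold Pool.Agent.N879.QM.MT Mt
  congr 1
  · unfold Pool.Agent.N879.QM.Ak arithA
    refine tprod_congr fun p => ?_
    unfold Pool.Agent.N879.QM.loc lf
    rw [prod_Ed]
    have e1 : ∀ r : Pool.Agent.N879.QM.Pr k, (1 - ((p : ℕ) : ℂ) ^ (-(1 + Pool.Agent.N879.QM.im β r.1.1 +
        Pool.Agent.N879.QM.im β r.1.2))) = 1 - ((p : ℕ) : ℂ) ^ (-(1 + le β r.1)) := by
      intro r
      unfold Pool.Agent.N879.QM.im le
      congr 3
      ring
    simp_rw [e1]
    unfold Pool.Agent.N879.QM.im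
    rw [div_eq_mul_inv _ (1 + 1 / ((p : ℕ) : ℂ))]
    ring
  · rw [prod_Ed]
    refine Finset.prod_congr rfl fun r _ => ?_
    unfold Pool.Agent.N879.QM.im le
    congr 1
    ring

theorem push (σ : Fin k → Bool) (H : ℝ) {S : Set (Fin k → ℝ)} (hS : MeasurableSet S) :
    mP (Fin k) H {γ | sv σ γ ∈ S} ≤ Pool.Agent.N879.QM.mS k H S := by
  classical
  set ν : Fin k → Measure ℝ := fun j => if σ j then volume.restrict (Icc 0 H) else
    volume.restrict (Icc (-H) 0) with hν
  have hsf : ∀ j, SigmaFinite (ν j) := by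
    intro j
    rw [hν]
    dsimp only
    split_ifs <;> infer_instance
  have hmp : MeasurePreserving (fun γ : Fin k → ℝ => fun j => (fun y : ℝ => if σ j then y else -y) (γ j))
      (Measure.pi fun _ : Fin k => volume.restrict (Icc 0 H)) (Measure.pi ν) := by
    refine measurePreserving_pi (fun _ : Fin k => (volume : Measure ℝ).restrict (Icc 0 H)) ν
      (f := fun j => fun y : ℝ => if σ j then y else -y) fun j => ?_
    rw [hν]
    dsimp only
    by_cases hj : σ j = true
    · simp only [if_pos hj]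
      exact MeasurePreserving.id _
    · simp only [if_neg hj]
      have h1 := (Measure.measurePreserving_neg (volume : Measure ℝ)).restrict_preimage
        (s := Icc (-H) 0) measurableSet_Icc
      have h2 : (Neg.neg : ℝ → ℝ) ⁻¹' (Icc (-H) 0) = Icc 0 H := by
        ext x
        simp only [mem_preimage, mem_Icc]
        constructor <;> rintro ⟨h3, h4⟩ <;> constructor <;> linarith
      rw [h2] at h1
      exact h1
  have h1 : mP (Fin k) H {γ | sv σ γ ∈ S} = (Measure.pi ν) S := by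
    unfold mP
    exact hmp.measure_preimage hS.nullMeasurableSet
  rw [h1]
  have h2 : Measure.pi ν = (volume : Measure (Fin k → ℝ)).restrict
      (Set.univ.pi fun j => if σ j then Icc 0 H else Icc (-H) 0) := by
    have e : ν = fun j => (volume : Measure ℝ).restrict (if σ j then Icc 0 H else Icc (-H) 0) := by
      funext j
      rw [hν]
      dsimp only
      split_ifs <;> rfl
    rw [e, volume_pi, Measure.restrict_pi_pi]
  have h3 : Pool.Agent.N879.QM.mS k H = (volume : Measure (Fin k → ℝ)).restrict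
      (Set.univ.pi fun _ => Icc (-H) H) := by
    unfold Pool.Agent.N879.QM.mS
    rw [volume_pi, Measure.restrict_pi_pi]
  rw [h2, h3]
  rcases lt_or_ge H 0 with hH | hH
  · -- empty cubes or no coordinates
    refine Measure.restrict_mono (Set.pi_mono fun j _ => ?_) le_rfl S
    split_ifs
    · intro x hx
      have := hx.1.trans hx.2
      linarith
    · intro x hx
      have := hx.1.trans hx.2
      linarith
  · refine Measure.restrict_mono (Set.pi_mono fun j _ => ?_) le_rfl S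
    split_ifs
    · exact Icc_subset_Icc (by linarith) le_rfl
    · exact Icc_subset_Icc le_rfl hH

/-- the box sum and the prediction: every exponent `< 1/4` -/
theorem MTe (k : ℕ) {c : ℝ} (hc0 : 0 < c) (hc : c < 1 / 4) : ∃ C H₀ : ℝ, 0 < C ∧ 1 ≤ H₀ ∧
    ∀ (σ : Fin k → Bool) (H : ℝ), H₀ ≤ H →
    mP (Fin k) H {γ | H ^ (-c) < ‖DS ⌊H⌋₊ (sv σ γ) - Mt (sv σ γ)‖} ≤
      ENNReal.ofReal (C * H ^ k * H ^ (-(1 / 4 - c))) := by
  obtain ⟨C, A₀, hC, hA₀, h⟩ := Pool.Agent.H681.QF.P.Mset k (ε := 1 / 4 - c) (by linarith) (by linarith)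
  refine ⟨C, A₀, hC, by linarith, ?_⟩
  intro σ H hH
  have hH0 : 0 < H := by linarith
  have h1 := h H hH
  have hfm : Measurable fun β : Fin k → ℝ => ‖Pool.Agent.N879.QM.SN k ⌊H⌋₊ β -
    Pool.Agent.N879.QM.MT (Pool.Agent.N879.QM.im β)‖ :=
    ((Pool.Agent.N879.QM.meas_SN _).sub (Pool.Agent.N879.QM.meas_MT Pool.Agent.N879.QM.t_EUL)).norm
  have hSm : MeasurableSet {β : Fin k → ℝ | H ^ (1 / 4 - c - 1 / 4) < ‖Pool.Agent.N879.QM.SN k ⌊H⌋₊ β -
    Pool.Agent.N879.QM.MT (Pool.Agent.N879.QM.im β)‖} := measurableSet_lt measurable_const hfm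
  have h2 := (push σ H hSm).trans h1
  have e1 : {γ : Fin k → ℝ | H ^ (-c) < ‖DS ⌊H⌋₊ (sv σ γ) - Mt (sv σ γ)‖} =
      {γ | sv σ γ ∈ {β : Fin k → ℝ | H ^ (1 / 4 - c - 1 / 4) < ‖Pool.Agent.N879.QM.SN k ⌊H⌋₊ β -
        Pool.Agent.N879.QM.MT (Pool.Agent.N879.QM.im β)‖}} := by
    ext γ
    simp only [mem_ofPred_eq]
    rw [SN_eq, MT_eq]
    have : (1 / 4 - c - 1 / 4 : ℝ) = -c := by ring
    rw [this]
  rw [e1]
  refine h2.trans (ENNReal.ofReal_le_ofReal (le_of_eq ?_))
  rw [mul_assoc, ← Real.rpow_natCast H k, ← Real.rpow_add hH0]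
  congr 2

end

end Pool.Agent.H681.QF
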