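import Pool.Agent.H681.QF.Cube
import Pool.Graph.R_pool_sql_team_seeded_63374d34.N879.QM.Uni
import Pool.Graph.R_pool_sql_team_seeded_63374d34.N879.QM.Fin

set_option autoImplicit false

/-!
Project QF: the families of the projects QF and QM.
-/

namespace Pool.Agent.H681.QF

open MeasureTheory Set Filter Complex Topology
open Pool.Agent.Y752.QF

noncomputable section

open Pool.Agent.N879.QM (Is ch ch_spec Fq Fq_eq Fq_empty t_UNI Rp)

/-- the two descriptions of the family -/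
theorem fam_sum (b : Bool) (s : ℤ) (hs : s = if b then -1 else 1) (N : ℕ) (f : DC → ℂ) :
    ∑ p ∈ QFs b N, f p = ∑ q ∈ Finset.Ico 2 (N + 1), ∑ᶠ χ ∈ Fq s q, f ⟨q, χ⟩ := by
  classical
  have hsc : ((s : ℤ) : ℂ) = if b then -1 else 1 := by
    rw [hs]
    split_ifs <;> simp
  have h1 : ∑ q ∈ Finset.Ico 2 (N + 1), ∑ᶠ χ ∈ Fq s q, f ⟨q, χ⟩ =
      ∑ q ∈ (Finset.Ico 2 (N + 1)).filter (Is s), f ⟨q, ch s q⟩ := by
    rw [Finset.sum_filter]
    refine Finset.sum_congr rfl fun q hq => ?_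
    have hq2 : 2 ≤ q := (Finset.mem_Ico.1 hq).1
    split_ifs with h
    · rw [Fq_eq t_UNI h, finsum_mem_singleton]
    · rw [Fq_empty hq2 h, finsum_mem_empty]
  rw [h1]
  symm
  refine Finset.sum_bij (fun q _ => (⟨q, ch s q⟩ : DC)) ?_ ?_ ?_ ?_
  · intro q hq
    rw [Finset.mem_filter, Finset.mem_Ico] at hq
    rw [mem_QFs Pool.Agent.Y845.QF.IN]
    obtain ⟨a1, a2, a3, a4⟩ := ch_spec hq.2
    refine ⟨?_, ?_, a1, a2, a3, ?_⟩
    · show q ≠ 0
      omega
    · show q ≤ N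
      omega
    · rw [← hsc]
      exact a4
  · intro q _ q' _ h
    exact congrArg Sigma.fst h
  · intro p hp
    rw [mem_QFs Pool.Agent.Y845.QF.IN] at hp
    obtain ⟨q, χ⟩ := p
    obtain ⟨b1, b2, b3, b4, b5, b6⟩ := hp
    simp only at b1 b2 b3 b4 b5 b6
    have hq2 : 2 ≤ q := by
      by_contra hlt
      have : q = 1 := by omega
      subst this
      exact b5 (Subsingleton.elim _ _)
    have hr : Rp s χ := ⟨b3, b4, b5, by rw [hsc]; exact b6⟩
    have hI : Is s q := ⟨hq2, χ, hr⟩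
    refine ⟨q, ?_, ?_⟩
    · rw [Finset.mem_filter, Finset.mem_Ico]
      exact ⟨⟨hq2, by omega⟩, hI⟩
    · rw [t_UNI s q χ (ch s q) b1 hr (ch_spec hI)]
  · intro q _
    rfl

end

end Pool.Agent.H681.QF
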