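import Pool.Agent.H681.QF.Pp
import Pool.Graph.R_pool_sql_team_seeded_63374d34.N879.QM.Asm2
import Pool.Graph.R_pool_sql_team_seeded_63374d34.N879.QM.Zr

set_option autoImplicit false

/-!
Project QF: mean squares of the removed parts, and of the difference of the product of zeta values and the
hyperbolic sums.
-/

namespace Pool.Agent.H681.QF.P

open Complex MeasureTheory Set Filter
open scoped BigOperators ENNReal
open Pool.Agent.N879.QM Pool.Agent.N879.QM.Coef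
open Pool.Agent.Y532.QF (chs)
open Pool.Agent.H681.QF.W (wmv)
open Pool.Agent.TH228.GS (hh H2 hh_nonneg H2_meas H2_int le_H2)

noncomputable section

variable {k : ℕ}

/-- powers of logarithms -/
lemma logpow (P : ℕ) {ε : ℝ} (hε : 0 < ε) : ∃ C : ℝ, 1 ≤ C ∧ ∀ A : ℝ, 1 ≤ A → (1 + Real.log A) ^ P ≤ C * A ^ ε := by
  set η : ℝ := ε / (P + 1) with hη
  have hη0 : 0 < η := by positivity
  refine ⟨(1 + 1 / η) ^ P, one_le_pow₀ (by
    have : 0 ≤ 1 / η := by positivity
    linarith), fun A hA => ?_⟩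
  have hA0 : 0 < A := by linarith
  have h1 : 1 + Real.log A ≤ (1 + 1 / η) * A ^ η := by
    have h2 := Real.log_le_rpow_div hA0.le hη0
    have h3 : 1 ≤ A ^ η := Real.one_le_rpow hA hη0.le
    calc 1 + Real.log A ≤ A ^ η + A ^ η / η := by linarith
      _ = (1 + 1 / η) * A ^ η := by ring
  have h0 : 0 ≤ 1 + Real.log A := by
    have := Real.log_nonneg hA
    linarith
  calc (1 + Real.log A) ^ P ≤ ((1 + 1 / η) * A ^ η) ^ P := pow_le_pow_left₀ h0 h1 P
    _ = (1 + 1 / η) ^ P * A ^ (η * P) := by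
        rw [mul_pow, ← Real.rpow_natCast (A ^ η), ← Real.rpow_mul hA0.le]
    _ ≤ (1 + 1 / η) ^ P * A ^ ε := by
        refine mul_le_mul_of_nonneg_left ?_ (by positivity)
        refine Real.rpow_le_rpow_of_exponent_le hA ?_
        rw [hη, div_mul_eq_mul_div, div_le_iff₀ (by positivity)]
        nlinarith

/-- the removed parts -/
theorem Rint (k : ℕ) {ε : ℝ} (hε : 0 < ε) : ∃ C : ℝ, 0 < C ∧ ∀ (S : Finset (Pr k)) (r0 : Pr k) (V : ℕ) (A : ℝ),
    1 ≤ V → (V : ℝ) ^ 2 ≤ A →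
    ∫⁻ β, ENNReal.ofReal (‖RS S r0 V β‖ ^ 2) ∂(mS k A) ≤ ENNReal.ofReal (C * A ^ k * A ^ ε / V) := by
  obtain ⟨C1, hC1, hMV⟩ := Pool.Agent.TH928.GS.t_MV
  set P : ℕ := Fintype.card (Pr k) with hP
  set η : ℝ := ε / (4 * (P + 1)) with hη
  have hη0 : 0 < η := by positivity
  obtain ⟨C2, hC2, hdiv⟩ := Pool.Agent.N879.QM.Coef.div_pow 1 η hη0
  obtain ⟨C3, hC3, hlog⟩ := logpow P (half_pos hε)
  set C4 : ℝ := max C2 1 with hC4
  have hC41 : 1 ≤ C4 := le_max_right _ _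
  refine ⟨(2 * C1) ^ k * C4 ^ P * 2 ^ k * 5 * C3, by positivity, ?_⟩
  intro S r0 V A hV hVA
  have hV1 : (1 : ℝ) ≤ V := by exact_mod_cast hV
  have hV0 : (0 : ℝ) < V := by linarith
  have hA : 1 ≤ A := by nlinarith
  have hA0 : 0 < A := by linarith
  have hVA' : (V : ℝ) ≤ A := by nlinarith
  have hpos : ∀ g ∈ RB S r0 V, ∀ r, 1 ≤ g r := fun g hg => piF_pos (Finset.mem_filter.1 hg).1
  have hsize : ∀ g ∈ RB S r0 V, ∀ j, 1 ≤ EE g j ∧ ((EE g j : ℕ) : ℝ) ≤ A ^ 2 := by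
    intro g hg j
    have hp := hpos g hg
    obtain ⟨hg1, hg2, -⟩ := Finset.mem_filter.1 hg
    refine ⟨EE_pos hp j, ?_⟩
    have h1 : EE g j ≤ (∏ r, g r) ^ 2 := by
      rw [← prod_EE]
      exact Nat.le_of_dvd (Finset.prod_pos fun i _ => EE_pos hp i)
        (Finset.dvd_prod_of_mem _ (Finset.mem_univ j))
    have h2 : ∏ r, g r ≤ V * V := by
      rw [← Finset.mul_prod_erase _ _ (Finset.mem_univ r0)]
      exact Nat.mul_le_mul ((mem_piF.1 hg1 r0).1 (Finset.mem_insert_self _ _)).2 hg2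
    have h3 : ((EE g j : ℕ) : ℝ) ≤ ((V : ℝ) * V) ^ 2 := by
      exact_mod_cast h1.trans (Nat.pow_le_pow_left h2 2)
    refine h3.trans (pow_le_pow_left₀ (by positivity) ?_ 2)
    nlinarith
  set B : ℝ := (C4 * A ^ (2 * η)) ^ P with hB
  have hB0 : 0 ≤ B := by positivity
  have hfib : ∀ g ∈ RB S r0 V, ((RB S r0 V).filter fun g' => EE g' = EE g).card ≤ ⌊B⌋₊ := by
    intro g hg
    have hp := hpos g hg
    refine Nat.le_floor ?_
    have h1 : ((RB S r0 V).filter fun g' => EE g' = EE g).card ≤ ∏ r : Pr k, (EE g r.1.1).divisors.card := by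
      rw [← Fintype.card_piFinset]
      refine Finset.card_le_card fun g' hg' => ?_
      rw [Finset.mem_filter] at hg'
      rw [Fintype.mem_piFinset]
      intro r
      rw [Nat.mem_divisors]
      refine ⟨?_, by have := EE_pos hp r.1.1; omega⟩
      rw [← hg'.2]
      exact dvd_EE g' r
    calc (((RB S r0 V).filter fun g' => EE g' = EE g).card : ℝ) ≤
          ∏ r : Pr k, ((EE g r.1.1).divisors.card : ℝ) := by exact_mod_cast h1
      _ ≤ ∏ _r : Pr k, (C4 * A ^ (2 * η)) := by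
          refine Finset.prod_le_prod (fun _ _ => by positivity) fun r _ => ?_
          have h2 := hdiv (EE g r.1.1) (hsize g hg _).1
          rw [pow_one] at h2
          refine h2.trans (mul_le_mul (le_max_left _ _) ?_ (by positivity) (by positivity))
          calc ((EE g r.1.1 : ℕ) : ℝ) ^ η ≤ (A ^ 2) ^ η :=
                Real.rpow_le_rpow (by positivity) (hsize g hg _).2 hη0.le
            _ = A ^ (2 * η) := by
                rw [← Real.rpow_natCast, ← Real.rpow_mul hA0.le]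
                norm_num
      _ = B := by rw [Finset.prod_const, Finset.card_univ]
  have hmv := wmv hC1 hMV hA k (RB S r0 V) EE (fun g => (((∏ r, (g r : ℝ))⁻¹ : ℝ) : ℂ)) ⌊B⌋₊ hsize hfib
  have e1 : ∀ β, RS S r0 V β = ∑ g ∈ RB S r0 V, (((∏ r, (g r : ℝ))⁻¹ : ℝ) : ℂ) * ∏ i, chs (EE g i) (β i) := by
    intro β
    unfold RS
    exact Finset.sum_congr rfl fun g hg => Ph_chs β (hpos g hg)
  simp_rw [e1]
  refine hmv.trans (ENNReal.ofReal_le_ofReal ?_)
  have h2 : ∑ g ∈ RB S r0 V, ‖(((∏ r, (g r : ℝ))⁻¹ : ℝ) : ℂ)‖ ^ 2 * ∏ i, (A + (EE g i : ℝ)) ≤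
      (2 * A) ^ k * (5 / V) * (1 + Real.log V) ^ P := by
    calc ∑ g ∈ RB S r0 V, ‖(((∏ r, (g r : ℝ))⁻¹ : ℝ) : ℂ)‖ ^ 2 * ∏ i, (A + (EE g i : ℝ)) ≤
          ∑ g ∈ RB S r0 V, (2 * A) ^ k * (5 / V) * ∏ r, ((g r : ℝ))⁻¹ := by
          refine Finset.sum_le_sum fun g hg => ?_
          rw [Complex.norm_real, Real.norm_of_nonneg (inv_nonneg.2
            (Finset.prod_nonneg fun _ _ => by positivity))]
          exact weight hA hVA hg
      _ = (2 * A) ^ k * (5 / V) * ∑ g ∈ RB S r0 V, ∏ r, ((g r : ℝ))⁻¹ := by rw [Finset.mul_sum]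
      _ ≤ (2 * A) ^ k * (5 / V) * (1 + Real.log V) ^ P := by
          refine mul_le_mul_of_nonneg_left ?_ (by positivity)
          refine le_trans ?_ (LL_le (insert r0 S) hV)
          exact Finset.sum_le_sum_of_subset_of_nonneg (Finset.filter_subset _ _)
            fun _ _ _ => Finset.prod_nonneg fun _ _ => by positivity
  have h3 : (1 + Real.log V) ^ P ≤ C3 * A ^ (ε / 2) := by
    refine le_trans (pow_le_pow_left₀ ?_ ?_ P) (hlog A hA)
    · have := Real.log_nonneg hV1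
      linarith
    · have := Real.log_le_log hV0 hVA'
      linarith
  have h4 : (⌊B⌋₊ : ℝ) ≤ C4 ^ P * A ^ (ε / 2) := by
    refine (Nat.floor_le hB0).trans ?_
    rw [hB, mul_pow, ← Real.rpow_natCast (A ^ (2 * η)), ← Real.rpow_mul hA0.le]
    refine mul_le_mul_of_nonneg_left ?_ (by positivity)
    refine Real.rpow_le_rpow_of_exponent_le hA ?_
    rw [hη]
    have h5 : (P : ℝ) / (P + 1) ≤ 1 := by
      rw [div_le_one (by positivity)]
      linarith
    calc 2 * (ε / (4 * ((P : ℝ) + 1))) * P = ε / 2 * (P / (P + 1)) := by field_simp; ring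
      _ ≤ ε / 2 * 1 := mul_le_mul_of_nonneg_left h5 (by positivity)
      _ = ε / 2 := mul_one _
  calc (2 * C1) ^ k * (⌊B⌋₊ * ∑ g ∈ RB S r0 V, ‖(((∏ r, (g r : ℝ))⁻¹ : ℝ) : ℂ)‖ ^ 2 *
        ∏ i, (A + (EE g i : ℝ))) ≤
        (2 * C1) ^ k * ((C4 ^ P * A ^ (ε / 2)) * ((2 * A) ^ k * (5 / V) * (C3 * A ^ (ε / 2)))) := by
        refine mul_le_mul_of_nonneg_left ?_ (by positivity)
        refine mul_le_mul h4 (h2.trans ?_) (Finset.sum_nonneg fun _ _ =>
          mul_nonneg (by positivity) (Finset.prod_nonneg fun _ _ => by positivity)) (by positivity)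
        exact mul_le_mul_of_nonneg_left h3 (by positivity)
    _ = (2 * C1) ^ k * C4 ^ P * 2 ^ k * 5 * C3 * A ^ k * (A ^ (ε / 2) * A ^ (ε / 2)) / V := by
        rw [mul_pow 2 A]
        ring
    _ = _ := by
        rw [← Real.rpow_add hA0]
        congr 3
        ring

/-- one pair -/
theorem Zint : ∃ C A₀ : ℝ, 0 < C ∧ 3 ≤ A₀ ∧ ∀ (k : ℕ) (r : Pr k) (V : ℕ) (A : ℝ), A₀ ≤ A → 1 ≤ V →
    (V : ℝ) ≤ A ^ (1 / 2 : ℝ) →
    (∀ β ∈ Gd k A, ‖riemannZeta (pp β r)‖ ≤ C * (1 + Real.log A)) ∧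
    ∫⁻ β in Gd k A, ENNReal.ofReal (‖riemannZeta (pp β r) - zN V (pp β r)‖ ^ 2) ∂(mS k A) ≤
      ENNReal.ofReal (C * (2 * A) ^ k / V) := by
  obtain ⟨C₁, T₁, hC₁, hT₁, hone⟩ := t_ZET
  refine ⟨4 * C₁, T₁, by positivity, hT₁, ?_⟩
  intro k r V A hA hV hVA
  have hA3 : 3 ≤ A := hT₁.trans hA
  have hA0 : 0 < A := by linarith
  set T : ℝ := 2 * A with hT
  have hT1 : 1 ≤ T := by linarith
  have hhalf : T ^ (1 / 2 : ℝ) ≤ 2 * A ^ (1 / 2 : ℝ) := by
    rw [hT, Real.mul_rpow (by norm_num) hA0.le]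
    have : (2 : ℝ) ^ (1 / 2 : ℝ) ≤ 2 ^ (1 : ℝ) :=
      Real.rpow_le_rpow_of_exponent_le (by norm_num) (by norm_num)
    rw [Real.rpow_one] at this
    have h0 : 0 ≤ A ^ (1 / 2 : ℝ) := by positivity
    exact mul_le_mul_of_nonneg_right this h0
  have hAT : A ^ (1 / 2 : ℝ) ≤ T ^ (1 / 2 : ℝ) :=
    Real.rpow_le_rpow hA0.le (by linarith) (by norm_num)
  obtain ⟨hz, hi⟩ := hone T V (by linarith) hV (hVA.trans hAT)
  have h0 : (1 : ℝ) ≤ T ^ (1 / 2 : ℝ) := Real.one_le_rpow hT1 (by norm_num)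
  have epp : ∀ β : Fin k → ℝ, pp β r = 1 + I * ((β r.1.1 + β r.1.2 : ℝ) : ℂ) := by
    intro β
    unfold pp
    push_cast
    ring
  have hv : ∀ β ∈ Gd k A, T ^ (1 / 2 : ℝ) ≤ |β r.1.1 + β r.1.2| ∧ |β r.1.1 + β r.1.2| ≤ T := by
    rintro β ⟨hβ1, hβ2⟩
    refine ⟨hhalf.trans (hβ2 r), ?_⟩
    have a1 := hβ1 r.1.1
    have a2 := hβ1 r.1.2
    exact (abs_add_le _ _).trans (by linarith)
  refine ⟨?_, ?_⟩
  · intro β hβ
    obtain ⟨h1, h2⟩ := hv β hβ
    rw [epp]
    refine (hz _ (h0.trans h1) h2).trans ?_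
    have hLT : Real.log T ≤ 1 + Real.log A := by
      rw [hT, Real.log_mul (by norm_num) hA0.ne']
      have : Real.log 2 ≤ 1 := by
        have := Real.log_two_lt_d9
        linarith
      linarith
    have hL0 : 0 ≤ 1 + Real.log A := by
      have := Real.log_nonneg (by linarith : (1 : ℝ) ≤ A)
      linarith
    nlinarith
  · have hmeas : Measurable fun β : Fin k → ℝ => H2 V T (β r.1.1 + β r.1.2) :=
      (H2_meas V T).comp ((measurable_pi_apply _).add (measurable_pi_apply _))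
    have hTY : 0 ≤ C₁ * T / V := by positivity
    calc ∫⁻ β in Gd k A, ENNReal.ofReal (‖riemannZeta (pp β r) - zN V (pp β r)‖ ^ 2) ∂(mS k A)
        ≤ ∫⁻ β in Gd k A, H2 V T (β r.1.1 + β r.1.2) ∂(mS k A) := by
          refine setLIntegral_mono hmeas fun β hβ => ?_
          obtain ⟨h1, h2⟩ := hv β hβ
          have := le_H2 V h1 h2
          rw [epp]
          exact this
      _ ≤ ∫⁻ β, H2 V T (β r.1.1 + β r.1.2) ∂(mS k A) := setLIntegral_le_lintegral _ _
      _ ≤ (∫⁻ v, H2 V T v) * ENNReal.ofReal (2 * A) ^ (k - 1) := Zr.fubS hA0.le _ _ (H2_meas V T)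
      _ ≤ (2 * ENNReal.ofReal (C₁ * T / V)) * ENNReal.ofReal (2 * A) ^ (k - 1) := by
          rw [H2_int V hT1]
          have e11 : ENNReal.ofReal (∫ v in (T ^ (1 / 2 : ℝ))..T, hh V v) ≤
              ENNReal.ofReal (C₁ * T / V) := ENNReal.ofReal_le_ofReal hi
          gcongr
      _ = ENNReal.ofReal (2 * (C₁ * T / V) * (2 * A) ^ (k - 1)) := by
          rw [ENNReal.ofReal_mul (by positivity : (0 : ℝ) ≤ 2 * (C₁ * T / V)),
            ENNReal.ofReal_mul (p := 2) (q := C₁ * T / V) (by norm_num : (0 : ℝ) ≤ 2),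
            ENNReal.ofReal_pow (by positivity),
            ENNReal.ofReal_ofNat]
      _ ≤ ENNReal.ofReal (4 * C₁ * (2 * A) ^ k / V) := by
          refine ENNReal.ofReal_le_ofReal ?_
          have hk : 1 ≤ k := by
            have := r.1.1.isLt
            omega
          have e4 : (2 * A) * (2 * A) ^ (k - 1) = (2 * A) ^ k := by
            rw [← pow_succ']
            congr 1
            omega
          rw [← e4, hT]
          have : 2 * (C₁ * (2 * A) / V) * (2 * A) ^ (k - 1) = 2 * C₁ * ((2 * A) * (2 * A) ^ (k - 1)) / V := by ring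
          rw [this]
          gcongr
          norm_num

lemma meas_pp (r : Pr k) : Measurable fun β : Fin k → ℝ => pp β r := by
  unfold pp
  have : Measurable fun β : Fin k → ℝ => (1 : ℂ) + I * (((β r.1.1 : ℝ) : ℂ) + ((β r.1.2 : ℝ) : ℂ)) := by
    fun_prop
  exact this

lemma meas_PS (S : Finset (Pr k)) (V : ℕ) : Measurable fun β : Fin k → ℝ => PS S V β := by
  unfold PS
  refine Finset.measurable_sum _ fun g hg => ?_
  have hp := piF_pos (Finset.mem_filter.1 hg).1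
  have : (fun β : Fin k → ℝ => Ph β g) = fun β => cx (EE g) β := by
    funext β
    exact (cx_EE g (fun r => by have := hp r; omega) β).symm
  rw [this]
  exact meas_cx _

lemma meas_RS (S : Finset (Pr k)) (r0 : Pr k) (V : ℕ) : Measurable fun β : Fin k → ℝ => RS S r0 V β := by
  unfold RS
  refine Finset.measurable_sum _ fun g hg => ?_
  have hp := piF_pos (Finset.mem_filter.1 hg).1
  have : (fun β : Fin k → ℝ => Ph β g) = fun β => cx (EE g) β := by
    funext β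
    exact (cx_EE g (fun r => by have := hp r; omega) β).symm
  rw [this]
  exact meas_cx _

lemma meas_DD (S : Finset (Pr k)) (V : ℕ) : Measurable fun β : Fin k → ℝ => DD S V β := by
  unfold DD
  exact (Finset.measurable_prod _ fun r _ => meas_zeta.comp (meas_pp r)).sub (meas_PS S V)

/-- scaling -/
lemma lint_smul {μ : Measure (Fin k → ℝ)} {G : Set (Fin k → ℝ)} (hG : MeasurableSet G) {f g : (Fin k → ℝ) → ℂ}
    {c a : ℝ} (hfg : ∀ β ∈ G, ‖f β‖ ≤ c * ‖g β‖)
    (h : ∫⁻ β in G, ENNReal.ofReal (‖g β‖ ^ 2) ∂μ ≤ ENNReal.ofReal a) :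
    ∫⁻ β in G, ENNReal.ofReal (‖f β‖ ^ 2) ∂μ ≤ ENNReal.ofReal (c ^ 2 * a) := by
  rw [ENNReal.ofReal_mul (sq_nonneg c)]
  refine le_trans ?_ (mul_le_mul' le_rfl h)
  rw [← lintegral_const_mul' _ _ ENNReal.ofReal_ne_top]
  refine setLIntegral_mono' hG fun β hβ => ?_
  rw [← ENNReal.ofReal_mul (sq_nonneg c)]
  refine ENNReal.ofReal_le_ofReal ?_
  rw [← mul_pow]
  exact pow_le_pow_left₀ (norm_nonneg _) (hfg β hβ) 2

/-- the product of zeta values and the hyperbolic sums -/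
theorem Dint (k : ℕ) : ∃ A₀ : ℝ, 3 ≤ A₀ ∧ ∀ (S : Finset (Pr k)) (ε : ℝ), 0 < ε → ∃ C : ℝ, 0 < C ∧
    ∀ (V : ℕ) (A : ℝ), A₀ ≤ A → 1 ≤ V → (V : ℝ) ^ 2 ≤ A →
    ∫⁻ β in Gd k A, ENNReal.ofReal (‖DD S V β‖ ^ 2) ∂(mS k A) ≤ ENNReal.ofReal (C * A ^ k * A ^ ε / V) := by
  classical
  obtain ⟨CZ, A₀, hCZ, hA₀, hZ⟩ := Zint
  refine ⟨A₀, hA₀, fun S => ?_⟩
  induction S using Finset.induction_on with
  | empty =>
    intro ε hε
    refine ⟨1, one_pos, ?_⟩
    intro V A hA hV hVA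
    have : ∀ β : Fin k → ℝ, DD (∅ : Finset (Pr k)) V β = 0 := by
      intro β
      unfold DD
      rw [PS_empty hV, Finset.prod_empty, sub_self]
    simp_rw [this]
    simp
  | insert r0 S h0 ih =>
    intro ε hε
    obtain ⟨C1, hC1, h1⟩ := ih (ε / 2) (by positivity)
    obtain ⟨C2, hC2, h2⟩ := Rint k hε
    obtain ⟨C3, hC3, h3⟩ := logpow 2 (half_pos hε)
    obtain ⟨C4, hC4, h4⟩ := logpow (Fintype.card (Pr k) * 2) hε
    refine ⟨4 * (CZ ^ 2 * C3 * C1) + 4 * (C4 * CZ * 2 ^ k) + 2 * C2, by positivity, ?_⟩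
    intro V A hA hV hVA
    have hA3 : 3 ≤ A := hA₀.trans hA
    have hA1 : 1 ≤ A := by linarith
    have hA0 : 0 < A := by linarith
    have hV1 : (1 : ℝ) ≤ V := by exact_mod_cast hV
    have hV0 : (0 : ℝ) < V := by linarith
    have hVA2 : (V : ℝ) ≤ A ^ (1 / 2 : ℝ) := by
      rw [← Real.sqrt_eq_rpow]
      exact Real.le_sqrt_of_sq_le hVA
    have hVA1 : (V : ℝ) ≤ A := by nlinarith
    have hL : 0 ≤ 1 + Real.log A := by
      have := Real.log_nonneg hA1
      linarith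
    obtain ⟨z1, z2⟩ := hZ k r0 V A hA hV hVA2
    have hGm := Gd_meas k A
    have a1 := lint_smul (f := fun β => riemannZeta (pp β r0) * DD S V β) (g := fun β => DD S V β)
      (c := CZ * (1 + Real.log A)) hGm (fun β hβ => by
        rw [norm_mul]
        exact mul_le_mul_of_nonneg_right (z1 β hβ) (norm_nonneg _)) (h1 V A hA hV hVA)
    have a2 := lint_smul (f := fun β => PS S V β * (riemannZeta (pp β r0) - zN V (pp β r0)))
      (g := fun β => riemannZeta (pp β r0) - zN V (pp β r0))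
      (c := (1 + Real.log A) ^ Fintype.card (Pr k)) hGm (fun β hβ => by
        rw [norm_mul]
        refine mul_le_mul_of_nonneg_right ((PS_le S hV β).trans ?_) (norm_nonneg _)
        refine pow_le_pow_left₀ ?_ ?_ _
        · have := Real.log_nonneg hV1
          linarith
        · have := Real.log_le_log hV0 hVA1
          linarith) z2
    have a3 : ∫⁻ β in Gd k A, ENNReal.ofReal (‖RS S r0 V β‖ ^ 2) ∂(mS k A) ≤
        ENNReal.ofReal (C2 * A ^ k * A ^ ε / V) := (setLIntegral_le_lintegral _ _).trans (h2 S r0 V A hV hVA)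
    have m1 : Measurable fun β : Fin k → ℝ => riemannZeta (pp β r0) * DD S V β :=
      (meas_zeta.comp (meas_pp r0)).mul (meas_DD S V)
    have m2 : Measurable fun β : Fin k → ℝ => PS S V β * (riemannZeta (pp β r0) - zN V (pp β r0)) :=
      (meas_PS S V).mul ((meas_zeta.comp (meas_pp r0)).sub (meas_zN V r0))
    have b1 := lint_add_sq (h := fun β => riemannZeta (pp β r0) * DD S V β +
      PS S V β * (riemannZeta (pp β r0) - zN V (pp β r0))) m1 m2 (by positivity) (by positivity) a1 a2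
      fun _ => rfl
    have b2 := lint_add_sq (h := fun β => DD (insert r0 S) V β) (m1.add m2) (meas_RS S r0 V) (by positivity)
      (by positivity) b1 a3 fun β => DD_insert h0 V β
    refine b2.trans (ENNReal.ofReal_le_ofReal ?_)
    have c1 : (CZ * (1 + Real.log A)) ^ 2 * (C1 * A ^ k * A ^ (ε / 2) / V) ≤
        CZ ^ 2 * C3 * C1 * A ^ k * A ^ ε / V := by
      have := h3 A hA1
      calc (CZ * (1 + Real.log A)) ^ 2 * (C1 * A ^ k * A ^ (ε / 2) / V) =
            CZ ^ 2 * (1 + Real.log A) ^ 2 * (C1 * A ^ k * A ^ (ε / 2) / V) := by rw [mul_pow]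
        _ ≤ CZ ^ 2 * (C3 * A ^ (ε / 2)) * (C1 * A ^ k * A ^ (ε / 2) / V) := by gcongr
        _ = CZ ^ 2 * C3 * C1 * A ^ k * (A ^ (ε / 2) * A ^ (ε / 2)) / V := by ring
        _ = _ := by
            rw [← Real.rpow_add hA0]
            congr 3
            ring
    have c2 : ((1 + Real.log A) ^ Fintype.card (Pr k)) ^ 2 * (CZ * (2 * A) ^ k / V) ≤
        C4 * CZ * 2 ^ k * A ^ k * A ^ ε / V := by
      have := h4 A hA1
      rw [← pow_mul, mul_pow 2 A]
      calc (1 + Real.log A) ^ (Fintype.card (Pr k) * 2) * (CZ * (2 ^ k * A ^ k) / V) ≤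
            (C4 * A ^ ε) * (CZ * (2 ^ k * A ^ k) / V) := by gcongr
        _ = _ := by ring
    calc 2 * (2 * ((CZ * (1 + Real.log A)) ^ 2 * (C1 * A ^ k * A ^ (ε / 2) / V)) +
          2 * (((1 + Real.log A) ^ Fintype.card (Pr k)) ^ 2 * (CZ * (2 * A) ^ k / V))) +
          2 * (C2 * A ^ k * A ^ ε / V) ≤
          2 * (2 * (CZ ^ 2 * C3 * C1 * A ^ k * A ^ ε / V) + 2 * (C4 * CZ * 2 ^ k * A ^ k * A ^ ε / V)) +
          2 * (C2 * A ^ k * A ^ ε / V) := by gcongr
      _ = _ := by ring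

end

end Pool.Agent.H681.QF.P
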