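import Pool.Agent.H681.QF.Pp
import Pool.Graph.R_pool_sql_team_seeded_63374d34.N879.QM.Eul

set_option autoImplicit false

/-!
Project QF: the partial sums of the coefficients of the Dirichlet series `A_k · ∏ ζ` through hyperbolic sums.
-/

namespace Pool.Agent.H681.QF.P

open Complex Finset
open scoped BigOperators
open Pool.Agent.N879.QM Pool.Agent.N879.QM.Coef

noncomputable section

variable {k : ℕ}

/-- partial sums of the coefficients -/
def GN (N : ℕ) (β : Fin k → ℝ) : ℂ := ∑ m ∈ Finset.Icc 1 N, gA β m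

/-- Möbius inversion -/
lemma mu_pw (s : ℂ) : muA s * Eul.pw (-s) = 1 := by
  ext n
  rw [ArithmeticFunction.mul_apply, ArithmeticFunction.one_apply]
  have h1 : ∀ x ∈ n.divisorsAntidiagonal, muA s x.1 * Eul.pw (-s) x.2 =
      (n : ℂ) ^ (-s) * (((ArithmeticFunction.moebius x.1 : ℤ) : ℂ)) := by
    intro x hx
    obtain ⟨e1, e2⟩ := Nat.mem_divisorsAntidiagonal.1 hx
    have h2 : x.2 ≠ 0 := by
      intro h
      rw [h, mul_zero] at e1
      exact e2 e1.symm
    rw [Eul.muA_apply, Eul.pw_apply _ h2, mul_assoc, ← Complex.natCast_mul_natCast_cpow, ← Nat.cast_mul, e1]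
    ring
  rw [Finset.sum_congr rfl h1, ← Finset.mul_sum]
  have h3 : (∑ x ∈ n.divisorsAntidiagonal, ((ArithmeticFunction.moebius x.1 : ℤ) : ℂ)) =
      if n = 1 then 1 else 0 := by
    have e2 : ((ArithmeticFunction.moebius * (ArithmeticFunction.zeta : ArithmeticFunction ℤ)) n : ℤ) =
        ∑ x ∈ n.divisorsAntidiagonal, ArithmeticFunction.moebius x.1 := by
      rw [ArithmeticFunction.mul_apply]
      refine Finset.sum_congr rfl fun x hx => ?_
      obtain ⟨e1, e2⟩ := Nat.mem_divisorsAntidiagonal.1 hx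
      have h2 : x.2 ≠ 0 := by
        intro h
        rw [h, mul_zero] at e1
        exact e2 e1.symm
      rw [ArithmeticFunction.natCoe_apply, ArithmeticFunction.zeta_apply, if_neg h2]
      simp
    rw [← Int.cast_sum, ← e2, ArithmeticFunction.moebius_mul_coe_zeta, ArithmeticFunction.one_apply]
    split_ifs <;> simp
  rw [h3]
  split_ifs with h
  · rw [h]; simp
  · simp

/-- the coefficients of `A_k · ∏ ζ` -/
lemma gA_al (β : Fin k → ℝ) : gA β = al β * ∏ r : Pr k, Eul.pw (-(pp β r)) := by
  unfold al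
  rw [mul_assoc, ← Finset.prod_mul_distrib]
  simp_rw [mu_pw]
  simp

/-- the identity for the partial sums -/
theorem GN_eq (N : ℕ) (β : Fin k → ℝ) :
    GN N β = ∑ b ∈ Finset.Icc 1 N, al β b * PS Finset.univ (N / b) β := by
  classical
  unfold GN
  have h0 := psum N (al β) (fun r : Pr k => Eul.pw (-(pp β r)))
  rw [← gA_al] at h0
  rw [h0]
  refine Finset.sum_congr rfl fun b hb => ?_
  have hb1 := (Finset.mem_Icc.1 hb).1
  unfold PS
  rw [Finset.mul_sum, ← Finset.sum_filter]
  refine Finset.sum_congr ?_ ?_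
  · ext f
    rw [Finset.mem_filter, Finset.mem_filter, Fintype.mem_piFinset, mem_piF]
    simp only [Finset.mem_Icc, Finset.mem_univ, not_true_eq_false, forall_true_left, false_implies, and_true]
    rw [Nat.le_div_iff_mul_le (by omega), mul_comm b]
    constructor
    · rintro ⟨h1, h2⟩
      refine ⟨fun r => ⟨(h1 r).1, ?_⟩, h2⟩
      rw [Nat.le_div_iff_mul_le (by omega)]
      refine le_trans (Nat.mul_le_mul_right b ?_) h2
      exact Nat.le_of_dvd (Finset.prod_pos fun i _ => (h1 i).1) (Finset.dvd_prod_of_mem _ (Finset.mem_univ r))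
    · rintro ⟨h1, h2⟩
      exact ⟨fun r => ⟨(h1 r).1, (h1 r).2.trans (Nat.div_le_self _ _)⟩, h2⟩
  · intro f hf
    have hf1 := (Finset.mem_filter.1 hf).1
    have hp := piF_pos hf1
    congr 1
    unfold Ph
    refine Finset.prod_congr rfl fun r _ => ?_
    rw [Eul.pw_apply _ (by have := hp r; omega)]
    rfl

end

end Pool.Agent.H681.QF.P
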