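import Pool.Agent.H681.QF.Fin
import Pool.Graph.R_pool_sql_team_seeded_1acbe0a2.Y975.QF.Win
import Pool.Graph.R_pool_sql_team_seeded_1acbe0a2.Y975.QF.Op
import Pool.Graph.R_pool_sql_team_seeded_1acbe0a2.Y434.QF.Rep3
import Pool.Graph.R_pool_sql_team_seeded_1acbe0a2.Y845.QF.In
import Pool.Graph.R_pool_sql_team_seeded_1acbe0a2.Y700.QF.Es1
import Pool.Graph.R_pool_sql_team_seeded_1acbe0a2.Y401.QF.Cj
import Pool.Graph.R_pool_sql_team_seeded_1acbe0a2.Y412.QF.Hbe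
import Pool.Graph.R_pool_sql_team_seeded_1acbe0a2.Y492.QF.Ns2
import Pool.Graph.R_pool_sql_team_seeded_1acbe0a2.Y369.QF.Arc
import Pool.Graph.R_pool_sql_team_seeded_1acbe0a2.Y900.QF.Sqf
import Pool.Graph.R_pool_sql_team_seeded_1acbe0a2.Y900.QF.Nsqc
import Pool.Graph.R_pool_sql_team_seeded_1acbe0a2.Y68.QF.CC2
import Pool.Graph.R_pool_sql_team_seeded_1acbe0a2.Y815.QF.CC1
import Pool.Graph.R_pool_sql_team_seeded_1acbe0a2.Y331.QF.Cor
import Pool.Graph.R_pool_sql_team_seeded_1acbe0a2.Y331.QF.Ker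
import Pool.Graph.R_pool_sql_team_seeded_1acbe0a2.Y331.QF.L1a
import Pool.Graph.R_pool_sql_team_seeded_1acbe0a2.Y471.QF.L1b

set_option autoImplicit false

/-!
Project QF (library run 1acbe0a2, Y752/QF, by helper752 of that run): the packages put together.
-/

namespace Pool.Agent.H681.QF

open MeasureTheory Set Filter Complex Topology
open Pool.Agent.TH612.GS (mP)
open Pool.Agent.Y752.QF
open scoped ENNReal

noncomputable section

variable {k : ℕ}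

theorem t_PL3 : S_PL3 1 :=
  Pool.Agent.Y532.QF.P3.PL3 1 (Pool.Agent.Y700.QF.ES1
    (Pool.Agent.Y492.QF.NS2 (Pool.Agent.Y412.QF.HBE Pool.Agent.Y412.QF.HBL) Pool.Agent.Y492.QF.PVC)
    (Pool.Agent.Y369.QF.ARC Pool.Agent.Y845.QF.FM Pool.Agent.Y900.QF.SQF Pool.Agent.Y900.QF.NSQC)
    Pool.Agent.Y845.QF.FM)

theorem t_L1 : S_L1 := Pool.Agent.Y471.QF.L1 Pool.Agent.Y331.QF.L1a

theorem t_OP : S_OP := Pool.Agent.Y975.QF.OP t_L1 Pool.Agent.Y331.QF.KER Pool.Agent.Y331.QF.COR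
  Pool.Agent.Y815.QF.CC1 Pool.Agent.Y68.QF.CC2

/-- the theorem for the sign patterns, `X` a natural number -/
theorem all (k : ℕ) (hk : 1 ≤ k) {c : ℝ} (hc0 : 0 < c) (hc : c < 1 / 4) :
    ∀ η A ε : ℝ, 0 < η → 0 < ε → ε ≤ 1 → ∃ (δ : ℝ) (X0 : ℕ), 0 < δ ∧
    ∀ (σ : Fin k → Bool) (b : Bool) (X : ℕ) (H : ℝ), X0 ≤ X → (X : ℝ) ^ (1 + η) ≤ H →
    H ≤ (X : ℝ) ^ A →
    mP (Fin k) H {γ | (X : ℝ) ^ ε * ((X : ℝ) ^ (1 / 2 : ℝ) + (X : ℝ) ^ (3 / 2 : ℝ) * H ^ (-(1 / 2) : ℝ) +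
        X * H ^ (-c)) <
      ‖∑ p ∈ QFs b X, ∏ j, LL p (1 / 2 + I * (sv σ γ j : ℂ)) -
        (3 / Real.pi ^ 2 * X : ℝ) * Mt (sv σ γ)‖} ≤
      ENNReal.ofReal (H ^ k * (X : ℝ) ^ (-δ)) := by
  obtain ⟨C, H₀, hC, hH₀, h⟩ := MTe k hc0 hc
  intro η A ε hη hε hε1
  exact main3c t_OP (Pool.Agent.Y975.QF.WIN t_OP) Pool.Agent.Y434.QF.REP3 Pool.Agent.Y845.QF.IN 1 le_rfl
    t_PL3 (Pool.Agent.Y401.QF.CJ t_L1) k hk c (1 / 4 - c) (by linarith) ⟨C, H₀, hC, hH₀, h⟩ η A ε hη hε hε1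

lemma DS_one (γ : Fin k → ℝ) : DS 1 γ = 1 := by
  unfold DS
  have h1 : Fintype.piFinset (fun _ : Fin k => Finset.Icc 1 1) = {fun _ => 1} := by
    ext n
    simp only [Fintype.mem_piFinset, Finset.mem_Icc, Finset.mem_singleton]
    constructor
    · intro h
      funext j
      have := h j
      omega
    · rintro rfl j
      exact ⟨le_rfl, le_rfl⟩
  rw [h1, Finset.sum_singleton]
  simp [hw]

/-- the prediction is small outside a small set -/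
theorem mt_small (k : ℕ) : ∃ C c H₀ : ℝ, 0 < C ∧ 0 < c ∧ 1 ≤ H₀ ∧
    ∀ (σ : Fin k → Bool) (H V : ℝ), H₀ ≤ H → 4 ≤ V →
    mP (Fin k) H {γ | V < ‖Mt (sv σ γ)‖} ≤ ENNReal.ofReal (C * H ^ k * (1 / V ^ 2 + H ^ (-c))) := by
  obtain ⟨C1, hC1, h1⟩ := tail k
  obtain ⟨C, H₀, hC, hH₀, h⟩ := MTe k (c := 1 / 8) (by norm_num) (by norm_num)
  have e8 : (1 / 4 - 1 / 8 : ℝ) = 1 / 8 := by norm_num
  rw [e8] at h
  obtain ⟨c, hcd⟩ : ∃ c : ℝ, c = 1 / 8 := ⟨_, rfl⟩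
  have hc : 0 < c := by rw [hcd]; norm_num
  rw [← hcd] at h
  refine ⟨4 * C1 + C, c, H₀, by positivity, hc, hH₀, ?_⟩
  intro σ H V hH hV
  have hH1 : 1 ≤ H := hH₀.trans hH
  have hH0 : 0 < H := by linarith
  have hV0 : 0 < V := by linarith
  have a1 := h1 σ H 1 le_rfl (by exact_mod_cast hH1)
  have a2 := h σ H hH
  have hcont : Continuous fun γ : Fin k → ℝ => DS ⌊H⌋₊ (sv σ γ) - DS 1 (sv σ γ) :=
    ((DS_cont _).comp (sv_cont σ)).sub ((DS_cont _).comp (sv_cont σ))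
  have a3 : mP (Fin k) H {γ | V / 2 < ‖DS ⌊H⌋₊ (sv σ γ) - DS 1 (sv σ γ)‖} ≤
      ENNReal.ofReal (C1 * H ^ k * ((1 : ℕ) : ℝ) ^ (-(1 / 8) : ℝ) / (V / 2) ^ 2) :=
    Pool.Agent.N879.QM.cheb hcont.norm.measurable.aemeasurable (by positivity) a1
  have hHc : H ^ (-c) ≤ 1 := Real.rpow_le_one_of_one_le_of_nonpos hH1 (by linarith)
  have hsub : {γ : Fin k → ℝ | V < ‖Mt (sv σ γ)‖} ⊆
      {γ | V / 2 < ‖DS ⌊H⌋₊ (sv σ γ) - DS 1 (sv σ γ)‖} ∪
      {γ | H ^ (-c) < ‖DS ⌊H⌋₊ (sv σ γ) - Mt (sv σ γ)‖} := by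
    intro γ hγ
    by_contra hcon
    rw [Set.mem_union, not_or] at hcon
    have n1 : ‖DS ⌊H⌋₊ (sv σ γ) - DS 1 (sv σ γ)‖ ≤ V / 2 := not_lt.1 hcon.1
    have n2 : ‖DS ⌊H⌋₊ (sv σ γ) - Mt (sv σ γ)‖ ≤ H ^ (-c) := not_lt.1 hcon.2
    have n3 : V < ‖Mt (sv σ γ)‖ := hγ
    have e : Mt (sv σ γ) = (DS ⌊H⌋₊ (sv σ γ) - DS 1 (sv σ γ)) - (DS ⌊H⌋₊ (sv σ γ) - Mt (sv σ γ)) + 1 := by
      rw [DS_one]
      ring
    have n4 : ‖Mt (sv σ γ)‖ ≤ V / 2 + H ^ (-c) + 1 := by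
      rw [e]
      refine (norm_add_le _ _).trans (add_le_add ((norm_sub_le _ _).trans (add_le_add n1 n2)) ?_)
      rw [norm_one]
    linarith
  refine (measure_mono hsub).trans ((measure_union_le _ _).trans ((add_le_add a3 a2).trans ?_))
  rw [← ENNReal.ofReal_add (by positivity) (by positivity)]
  refine ENNReal.ofReal_le_ofReal ?_
  rw [Nat.cast_one, Real.one_rpow]
  have e1 : C1 * H ^ k * 1 / (V / 2) ^ 2 = 4 * C1 * H ^ k * (1 / V ^ 2) := by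
    field_simp
    ring
  rw [e1]
  have p1 : 0 ≤ H ^ k * (1 / V ^ 2) := by positivity
  have p2 : 0 ≤ H ^ k * H ^ (-c) := by positivity
  nlinarith [mul_nonneg hC.le p1, mul_nonneg hC1.le p2]

/-- from the sign patterns to the whole cube -/
theorem cube_le {H : ℝ} {B : Set (Fin k → ℝ)} (hB : MeasurableSet B) :
    volume {γ : Fin k → ℝ | (∀ j, |γ j| ≤ H) ∧ γ ∈ B} ≤ ∑ σ : Fin k → Bool, mP (Fin k) H {γ | sv σ γ ∈ B} := by
  classical
  have hI : MeasurableSet (Set.univ.pi fun _ : Fin k => Icc (0 : ℝ) H) :=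
    MeasurableSet.univ_pi fun _ => measurableSet_Icc
  have hmP : mP (Fin k) H = (volume : Measure (Fin k → ℝ)).restrict (Set.univ.pi fun _ => Icc (0 : ℝ) H) := by
    unfold mP
    rw [volume_pi, Measure.restrict_pi_pi]
  have hpres : ∀ σ : Fin k → Bool, MeasurePreserving (fun γ : Fin k → ℝ => sv σ γ) volume volume := by
    intro σ
    have h1 : MeasurePreserving (fun γ : Fin k → ℝ => fun j => (fun y : ℝ => if σ j then y else -y) (γ j))
        volume volume := by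
      refine volume_preserving_pi (f := fun j => fun y : ℝ => if σ j then y else -y) fun j => ?_
      by_cases hj : σ j = true
      · simp only [if_pos hj]
        exact MeasurePreserving.id _
      · simp only [if_neg hj]
        exact Measure.measurePreserving_neg (volume : Measure ℝ)
    exact h1
  have hsv : ∀ (σ : Fin k → Bool) (γ : Fin k → ℝ), sv σ (sv σ γ) = γ := by
    intro σ γ
    funext j
    unfold sv
    split_ifs <;> simp
  have hsub : {γ : Fin k → ℝ | (∀ j, |γ j| ≤ H) ∧ γ ∈ B} ⊆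
      ⋃ σ : Fin k → Bool, (fun γ : Fin k → ℝ => sv σ γ) ⁻¹'
        ({γ | sv σ γ ∈ B} ∩ Set.univ.pi fun _ => Icc (0 : ℝ) H) := by
    rintro γ ⟨h1, h2⟩
    rw [mem_iUnion]
    refine ⟨fun j => decide (0 ≤ γ j), ?_⟩
    rw [mem_preimage]
    refine ⟨?_, ?_⟩
    · rw [mem_ofPred_eq, hsv]
      exact h2
    · rw [Set.mem_univ_pi]
      intro j
      unfold sv
      have := h1 j
      rw [abs_le] at this
      by_cases hj : 0 ≤ γ j
      · simp only [hj, decide_true, if_true]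
        exact ⟨hj, this.2⟩
      · simp only [hj, decide_false, Bool.false_eq_true, if_false]
        exact ⟨by linarith [not_le.1 hj], by linarith [this.1]⟩
  refine (measure_mono hsub).trans ((measure_iUnion_fintype_le _ _).trans (Finset.sum_le_sum fun σ _ => ?_))
  have hm : MeasurableSet ({γ : Fin k → ℝ | sv σ γ ∈ B} ∩ Set.univ.pi fun _ => Icc (0 : ℝ) H) :=
    ((sv_cont σ).measurable hB).inter hI
  rw [(hpres σ).measure_preimage hm.nullMeasurableSet, hmP, Measure.restrict_apply' hI]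

end

end Pool.Agent.H681.QF
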