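import Pool.Agent.H681.QF.Af
import Pool.Agent.H681.QF.Rm

set_option autoImplicit false

/-!
Project QF: the sum over the box against the partial sums of the coefficients.
-/

namespace Pool.Agent.H681.QF.P

open Complex MeasureTheory Set Filter
open scoped BigOperators ENNReal
open Pool.Agent.N879.QM Pool.Agent.N879.QM.Coef
open Pool.Agent.Y532.QF (chs)
open Pool.Agent.H681.QF.W (wmv)

noncomputable section

variable {k : ℕ}

open Classical in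
/-- the tuples of the box beyond the partial sums -/
def TB (k Y N : ℕ) : Finset (Fin k → ℕ) :=
  (tup k Y).filter (fun n => IsSquare (∏ j, n j) ∧ N ^ 2 < ∏ j, n j)

lemma af_sq (m : ℕ) : af (m ^ 2) = af m := by
  unfold af
  rw [Nat.primeFactors_pow m two_ne_zero]

open Classical in
lemma GN_box {N Y : ℕ} (hNY : N ^ 2 ≤ Y) (β : Fin k → ℝ) : GN N β =
    ∑ n ∈ (tup k Y).filter (fun n => IsSquare (∏ j, n j) ∧ ∏ j, n j ≤ N ^ 2), (af (∏ j, n j) : ℂ) * cx n β := by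
  have h2 : ∀ n ∈ (tup k Y).filter (fun n => IsSquare (∏ j, n j) ∧ ∏ j, n j ≤ N ^ 2),
      Nat.sqrt (∏ j, n j) ∈ Finset.Icc 1 N := by
    intro n hn
    obtain ⟨hn1, hn2, hn3⟩ := Finset.mem_filter.1 hn
    rw [mem_tup] at hn1
    have h3 : 1 ≤ ∏ j, n j := one_le_prod fun j => (hn1 j).1
    rw [Finset.mem_Icc]
    refine ⟨?_, ?_⟩
    · rw [Nat.one_le_iff_ne_zero]
      intro h
      rw [Nat.sqrt_eq_zero] at h
      omega
    · rw [sq] at hn3
      have := Nat.sqrt_le_sqrt hn3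
      rwa [Nat.sqrt_eq] at this
  rw [← Finset.sum_fiberwise_of_maps_to h2]
  unfold GN
  refine Finset.sum_congr rfl fun m hm => ?_
  obtain ⟨hm1, hm2⟩ := Finset.mem_Icc.1 hm
  rw [Coef.gA_apply β hm1 hm2, ← Finset.sum_filter]
  refine Finset.sum_congr ?_ ?_
  · ext n
    simp only [Finset.mem_filter, mem_tup]
    constructor
    · rintro ⟨h1, h3⟩
      have hle : ∀ j, n j ≤ ∏ j, n j := fun j => Nat.le_of_dvd (Finset.prod_pos fun i _ => (h1 i).1)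
        (Finset.dvd_prod_of_mem _ (Finset.mem_univ j))
      refine ⟨⟨fun j => ⟨(h1 j).1, ?_⟩, ⟨m, by rw [h3, sq]⟩, ?_⟩, ?_⟩
      · refine (hle j).trans ?_
        rw [h3]
        exact (Nat.pow_le_pow_left hm2 2).trans hNY
      · rw [h3]
        exact Nat.pow_le_pow_left hm2 2
      · rw [h3, sq, Nat.sqrt_eq]
    · rintro ⟨⟨h1, ⟨a, ha⟩, h4⟩, h5⟩
      have hle : ∀ j, n j ≤ ∏ j, n j := fun j => Nat.le_of_dvd (Finset.prod_pos fun i _ => (h1 i).1)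
        (Finset.dvd_prod_of_mem _ (Finset.mem_univ j))
      refine ⟨fun j => ⟨(h1 j).1, (hle j).trans h4⟩, ?_⟩
      rw [← h5, ha, Nat.sqrt_eq, sq]
  · intro n hn
    have h3 : ∏ j, n j = m ^ 2 := by
      obtain ⟨h1, h2⟩ := Finset.mem_filter.1 hn
      obtain ⟨_, ⟨a, ha⟩, _⟩ := Finset.mem_filter.1 h1
      rw [← h2, ha, Nat.sqrt_eq, sq]
    rw [h3, af_sq]

lemma box_eq {N Y : ℕ} (hNY : N ^ 2 ≤ Y) (β : Fin k → ℝ) :
    SN k Y β - GN N β = ∑ n ∈ TB k Y N, (af (∏ j, n j) : ℂ) * cx n β := by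
  classical
  rw [GN_box hNY, sub_eq_iff_eq_add]
  unfold SN TB
  rw [← Finset.sum_filter, ← Finset.sum_filter_add_sum_filter_not _ (fun n => N ^ 2 < ∏ j, n j),
    Finset.filter_filter, Finset.filter_filter]
  congr 1
  refine Finset.sum_congr ?_ fun _ _ => rfl
  ext n
  simp

lemma sumsq' (k : ℕ) {δ : ℝ} (hδ : 0 < δ) : ∃ C : ℝ, 0 < C ∧ ∀ L : ℕ,
    ∑ n ∈ (tup k L).filter (fun n => IsSquare (∏ j, n j)), PP n ^ (-(1 / 2 + δ) : ℝ) ≤ C := by
  classical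
  obtain ⟨C, hC0, hC⟩ := div_pow k (δ / 4) (by positivity)
  have hs : Summable (fun m : ℕ => (m : ℝ) ^ (-(1 + δ) : ℝ)) :=
    Real.summable_nat_rpow.mpr (by linarith)
  refine ⟨C * (∑' m : ℕ, (m : ℝ) ^ (-(1 + δ) : ℝ)) + 1, ?_, fun L => ?_⟩
  · have : 0 ≤ ∑' m : ℕ, (m : ℝ) ^ (-(1 + δ) : ℝ) := tsum_nonneg fun m => by positivity
    positivity
  have h1 : ∑ n ∈ (tup k L).filter (fun n => IsSquare (∏ j, n j)), PP n ^ (-(1 / 2 + δ) : ℝ) ≤
      ∑ m ∈ Finset.Icc 1 (L ^ k), ∑ n ∈ (tup k L).filter (fun n => ∏ j, n j = m ^ 2),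
        PP n ^ (-(1 / 2 + δ) : ℝ) := by
    have h2 : ∀ n ∈ (tup k L).filter (fun n => IsSquare (∏ j, n j)),
        Nat.sqrt (∏ j, n j) ∈ Finset.Icc 1 (L ^ k) := by
      intro n hn
      rw [Finset.mem_filter] at hn
      obtain ⟨hn1, hn2⟩ := hn
      rw [mem_tup] at hn1
      have h3 : 1 ≤ ∏ j, n j := one_le_prod fun j => (hn1 j).1
      have h4 : ∏ j, n j ≤ L ^ k := by
        calc ∏ j, n j ≤ ∏ _j : Fin k, L := Finset.prod_le_prod' fun j _ => (hn1 j).2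
          _ = L ^ k := by rw [Finset.prod_const, Finset.card_univ, Fintype.card_fin]
      rw [Finset.mem_Icc]
      refine ⟨?_, (Nat.sqrt_le_self _).trans h4⟩
      rw [Nat.one_le_iff_ne_zero]
      intro h
      rw [Nat.sqrt_eq_zero] at h
      omega
    rw [← Finset.sum_fiberwise_of_maps_to h2]
    refine Finset.sum_le_sum fun m hm => ?_
    refine Finset.sum_le_sum_of_subset_of_nonneg ?_ fun n _ _ => ?_
    · intro n hn
      rw [Finset.mem_filter, Finset.mem_filter] at hn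
      rw [Finset.mem_filter]
      refine ⟨hn.1.1, ?_⟩
      obtain ⟨a, ha⟩ := hn.1.2
      rw [← hn.2, ha, Nat.sqrt_eq, sq]
    · unfold PP
      positivity
  refine h1.trans ?_
  have h3 : ∀ m ∈ Finset.Icc 1 (L ^ k), ∑ n ∈ (tup k L).filter (fun n => ∏ j, n j = m ^ 2),
        PP n ^ (-(1 / 2 + δ) : ℝ) ≤ C * (m : ℝ) ^ (-(1 + δ) : ℝ) := by
    intro m hm
    rw [Finset.mem_Icc] at hm
    have hm0 : (0 : ℝ) < m := by exact_mod_cast hm.1
    have hm1 : (1 : ℝ) ≤ m := by exact_mod_cast hm.1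
    have h4 : ∀ n ∈ (tup k L).filter (fun n => ∏ j, n j = m ^ 2),
        PP n ^ (-(1 / 2 + δ) : ℝ) = (m : ℝ) ^ (-(1 + 2 * δ) : ℝ) := by
      intro n hn
      rw [Finset.mem_filter] at hn
      unfold PP
      rw [hn.2]
      push_cast
      rw [← Real.rpow_natCast (m : ℝ) 2, ← Real.rpow_mul hm0.le]
      congr 1
      push_cast
      ring
    rw [Finset.sum_congr rfl h4, Finset.sum_const, nsmul_eq_mul]
    have h5 : (((tup k L).filter (fun n => ∏ j, n j = m ^ 2)).card : ℝ) ≤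
        C * ((m : ℝ) ^ 2) ^ (δ / 4 : ℝ) := by
      refine le_trans ?_ (by have := hC (m ^ 2) (Nat.one_le_pow _ _ hm.1); push_cast at this; exact this)
      exact_mod_cast card_fib k L (m ^ 2) (Nat.one_le_pow _ _ hm.1)
    calc (((tup k L).filter (fun n => ∏ j, n j = m ^ 2)).card : ℝ) * (m : ℝ) ^ (-(1 + 2 * δ) : ℝ)
        ≤ C * ((m : ℝ) ^ 2) ^ (δ / 4 : ℝ) * (m : ℝ) ^ (-(1 + 2 * δ) : ℝ) :=
          mul_le_mul_of_nonneg_right h5 (by positivity)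
      _ = C * (m : ℝ) ^ (2 * (δ / 4) + -(1 + 2 * δ) : ℝ) := by
          rw [← Real.rpow_natCast (m : ℝ) 2, ← Real.rpow_mul hm0.le, mul_assoc,
            ← Real.rpow_add hm0]
          norm_num
      _ ≤ C * (m : ℝ) ^ (-(1 + δ) : ℝ) := by
          apply mul_le_mul_of_nonneg_left _ hC0.le
          exact Real.rpow_le_rpow_of_exponent_le hm1 (by linarith)
  refine (Finset.sum_le_sum h3).trans ?_
  rw [← Finset.mul_sum]
  have h6 := hs.sum_le_tsum (Finset.Icc 1 (L ^ k)) (fun m _ => by positivity)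
  have := mul_le_mul_of_nonneg_left h6 hC0.le
  linarith

lemma cx_chs {n : Fin k → ℕ} (hn : ∀ j, 1 ≤ n j) (β : Fin k → ℝ) :
    cx n β = ((PP n ^ (-(1 / 2) : ℝ) : ℝ) : ℂ) * ∏ j, chs (n j) (β j) := cx_split hn β

/-- the mean square -/
theorem Bint (k : ℕ) {ε : ℝ} (hε : 0 < ε) : ∃ C : ℝ, 0 < C ∧ ∀ (N Y : ℕ) (A : ℝ), 1 ≤ N → N ^ 2 ≤ Y →
    (Y : ℝ) ≤ A →
    ∫⁻ β, ENNReal.ofReal (‖SN k Y β - GN N β‖ ^ 2) ∂(mS k A) ≤ ENNReal.ofReal (C * A ^ k * A ^ ε / N) := by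
  classical
  obtain ⟨C1, hC1, hMV⟩ := Pool.Agent.TH928.GS.t_MV
  set δ : ℝ := min (ε / 2) (1 / 2) with hδ
  have hδ0 : 0 < δ := lt_min (by positivity) (by norm_num)
  have hδ1 : δ ≤ ε / 2 := min_le_left _ _
  have hδ2 : δ ≤ 1 / 2 := min_le_right _ _
  obtain ⟨C2, hC2, hS⟩ := sumsq' k hδ0
  refine ⟨(2 * C1) ^ k * 2 ^ k * C2, by positivity, ?_⟩
  intro N Y A hN hNY hYA
  have hN1 : (1 : ℝ) ≤ N := by exact_mod_cast hN
  have hN0 : (0 : ℝ) < N := by linarith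
  have hY1 : 1 ≤ Y := le_trans (Nat.one_le_pow _ _ hN) hNY
  have hY1r : (1 : ℝ) ≤ Y := by exact_mod_cast hY1
  have hA : 1 ≤ A := hY1r.trans hYA
  have hA0 : 0 < A := by linarith
  have hNA : (N : ℝ) ≤ A := by
    refine le_trans ?_ hYA
    exact_mod_cast (Nat.le_self_pow two_ne_zero N).trans hNY
  have hmem : ∀ n ∈ TB k Y N, (∀ j, 1 ≤ n j ∧ n j ≤ Y) ∧ IsSquare (∏ j, n j) ∧ N ^ 2 < ∏ j, n j := by
    intro n hn
    unfold TB at hn
    rw [Finset.mem_filter, mem_tup] at hn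
    exact hn
  have e1 : ∀ β : Fin k → ℝ, SN k Y β - GN N β = ∑ n ∈ TB k Y N,
      ((af (∏ j, n j) : ℂ) * ((PP n ^ (-(1 / 2) : ℝ) : ℝ) : ℂ)) * ∏ j, chs (n j) (β j) := by
    intro β
    rw [box_eq hNY]
    refine Finset.sum_congr rfl fun n hn => ?_
    rw [cx_chs (fun j => ((hmem n hn).1 j).1), mul_assoc]
  simp_rw [e1]
  have hmv := wmv hC1 hMV hA k (TB k Y N) (fun n => n)
    (fun n => (af (∏ j, n j) : ℂ) * ((PP n ^ (-(1 / 2) : ℝ) : ℝ) : ℂ)) 1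
    (fun n hn j => ⟨((hmem n hn).1 j).1, by
      have h1 : (n j : ℝ) ≤ Y := by exact_mod_cast ((hmem n hn).1 j).2
      nlinarith⟩)
    (fun n hn => by
      refine Finset.card_le_one.2 fun a ha b hb => ?_
      rw [(Finset.mem_filter.1 ha).2, (Finset.mem_filter.1 hb).2])
  refine hmv.trans (ENNReal.ofReal_le_ofReal ?_)
  rw [Nat.cast_one, one_mul]
  have h1 : ∀ n ∈ TB k Y N, ‖(af (∏ j, n j) : ℂ) * ((PP n ^ (-(1 / 2) : ℝ) : ℝ) : ℂ)‖ ^ 2 *
      ∏ i, (A + (n i : ℝ)) ≤ (2 * A) ^ k * (A ^ ε / N) * PP n ^ (-(1 / 2 + δ) : ℝ) := by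
    intro n hn
    obtain ⟨hm1, hm2, hm3⟩ := hmem n hn
    have hP := one_le_PP (fun j => (hm1 j).1)
    have hP0 : 0 < PP n := by linarith
    have h2 : ∏ i, (A + (n i : ℝ)) ≤ (2 * A) ^ k := by
      calc ∏ i, (A + (n i : ℝ)) ≤ ∏ _i : Fin k, (2 * A) := by
            refine Finset.prod_le_prod (fun i _ => by positivity) fun i _ => ?_
            have : (n i : ℝ) ≤ Y := by exact_mod_cast (hm1 i).2
            linarith
        _ = (2 * A) ^ k := by simp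
    have h3 : ‖(af (∏ j, n j) : ℂ) * ((PP n ^ (-(1 / 2) : ℝ) : ℝ) : ℂ)‖ ^ 2 ≤ PP n ^ (-1 : ℝ) := by
      rw [norm_mul, Complex.norm_real, Complex.norm_real, Real.norm_of_nonneg (af_nonneg _),
        Real.norm_of_nonneg (by positivity), mul_pow, ← Real.rpow_natCast (PP n ^ _), ← Real.rpow_mul hP0.le]
      have h4 : af (∏ j, n j) ^ 2 ≤ 1 := pow_le_one₀ (af_nonneg _) (af_le_one _)
      have e5 : (-(1 / 2) : ℝ) * ((2 : ℕ) : ℝ) = -1 := by norm_num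
      rw [e5]
      calc af (∏ j, n j) ^ 2 * PP n ^ (-1 : ℝ) ≤ 1 * PP n ^ (-1 : ℝ) :=
            mul_le_mul_of_nonneg_right h4 (by positivity)
        _ = _ := one_mul _
    have h6 : PP n ^ (-1 : ℝ) ≤ (A ^ ε / N) * PP n ^ (-(1 / 2 + δ) : ℝ) := by
      have e6 : PP n ^ (-1 : ℝ) = PP n ^ (-(1 / 2 - δ) : ℝ) * PP n ^ (-(1 / 2 + δ) : ℝ) := by
        rw [← Real.rpow_add hP0]
        congr 1
        ring
      rw [e6]
      refine mul_le_mul_of_nonneg_right ?_ (by positivity)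
      have h7 : ((N : ℝ) ^ 2) ≤ PP n := by
        unfold PP
        exact_mod_cast hm3.le
      calc PP n ^ (-(1 / 2 - δ) : ℝ) ≤ ((N : ℝ) ^ 2) ^ (-(1 / 2 - δ) : ℝ) :=
            Real.rpow_le_rpow_of_nonpos (by positivity) h7 (by linarith)
        _ = (N : ℝ) ^ (2 * δ) * (N : ℝ) ^ (-1 : ℝ) := by
            rw [← Real.rpow_natCast (N : ℝ) 2, ← Real.rpow_mul hN0.le, ← Real.rpow_add hN0]
            congr 1
            push_cast
            ring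
        _ ≤ A ^ ε * (N : ℝ)⁻¹ := by
            rw [Real.rpow_neg_one]
            refine mul_le_mul_of_nonneg_right ?_ (by positivity)
            calc (N : ℝ) ^ (2 * δ) ≤ A ^ (2 * δ) := Real.rpow_le_rpow hN0.le hNA (by positivity)
              _ ≤ A ^ ε := Real.rpow_le_rpow_of_exponent_le hA (by linarith)
        _ = A ^ ε / N := by rw [div_eq_mul_inv]
    calc ‖(af (∏ j, n j) : ℂ) * ((PP n ^ (-(1 / 2) : ℝ) : ℝ) : ℂ)‖ ^ 2 * ∏ i, (A + (n i : ℝ)) ≤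
          ((A ^ ε / N) * PP n ^ (-(1 / 2 + δ) : ℝ)) * (2 * A) ^ k :=
          mul_le_mul (h3.trans h6) h2 (Finset.prod_nonneg fun _ _ => by positivity) (by positivity)
      _ = _ := by ring
  calc (2 * C1) ^ k * ∑ n ∈ TB k Y N, ‖(af (∏ j, n j) : ℂ) * ((PP n ^ (-(1 / 2) : ℝ) : ℝ) : ℂ)‖ ^ 2 *
        ∏ i, (A + (n i : ℝ)) ≤
        (2 * C1) ^ k * ∑ n ∈ TB k Y N, (2 * A) ^ k * (A ^ ε / N) * PP n ^ (-(1 / 2 + δ) : ℝ) :=
        mul_le_mul_of_nonneg_left (Finset.sum_le_sum h1) (by positivity)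
    _ = (2 * C1) ^ k * ((2 * A) ^ k * (A ^ ε / N)) * ∑ n ∈ TB k Y N, PP n ^ (-(1 / 2 + δ) : ℝ) := by
        rw [← Finset.mul_sum]
        ring
    _ ≤ (2 * C1) ^ k * ((2 * A) ^ k * (A ^ ε / N)) * C2 := by
        refine mul_le_mul_of_nonneg_left (le_trans ?_ (hS Y)) (by positivity)
        refine Finset.sum_le_sum_of_subset_of_nonneg ?_ fun n _ _ => by unfold PP; positivity
        intro n hn
        obtain ⟨hm1, hm2, hm3⟩ := hmem n hn
        rw [Finset.mem_filter, mem_tup]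
        exact ⟨hm1, hm2⟩
    _ = (2 * C1) ^ k * 2 ^ k * C2 * A ^ k * A ^ ε / N := by
        rw [mul_pow 2 A]
        ring

end

end Pool.Agent.H681.QF.P
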