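import Pool.Agent.H681.QF.All

set_option autoImplicit false

/-!
Project QF: the theorem on the cube `[-H,H]^k`, for real `X`, and for the family as in `MP_ea46f5_nt`.
-/

namespace Pool.Agent.H681.QF

open MeasureTheory Set Filter Complex Topology
open Pool.Agent.TH612.GS (mP)
open Pool.Agent.Y752.QF
open scoped ENNReal

noncomputable section

variable {k : ℕ}

lemma meas_Mt : Measurable fun β : Fin k → ℝ => Mt β := by
  have : (fun β : Fin k → ℝ => Mt β) = fun β => Pool.Agent.N879.QM.MT (Pool.Agent.N879.QM.im β) := by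
    funext β
    rw [MT_eq]
  rw [this]
  exact Pool.Agent.N879.QM.meas_MT Pool.Agent.N879.QM.t_EUL

lemma cont_mom (b : Bool) (N : ℕ) :
    Continuous fun β : Fin k → ℝ => ∑ p ∈ QFs b N, ∏ j, LL p (1 / 2 + I * (β j : ℂ)) := by
  refine continuous_finsetSum _ fun p hp => continuous_finsetProd _ fun j _ => ?_
  obtain ⟨h0, -, -, -, h1, -⟩ := (mem_QFs Pool.Agent.Y845.QF.IN).1 hp
  exact (LL_cont h0 h1).comp (continuous_apply j)

/-- the theorem on the cube, `X` real -/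
theorem cube (k : ℕ) (hk : 1 ≤ k) {c : ℝ} (hc : 0 < c) (hc4 : c < 1 / 4) :
    ∀ η A ε : ℝ, 0 < η → 0 < ε → ∃ δ X₀ : ℝ, 0 < δ ∧
    ∀ (b : Bool) (X H : ℝ), X₀ ≤ X → X ^ (1 + η) ≤ H → H ≤ X ^ A →
    volume {γ : Fin k → ℝ | (∀ j, |γ j| ≤ H) ∧
      X ^ ε * (X ^ (1 / 2 : ℝ) + X ^ (3 / 2 : ℝ) * H ^ (-(1 / 2) : ℝ) + X * H ^ (-c)) <
      ‖∑ p ∈ QFs b (⌈X⌉₊ - 1), ∏ j, LL p (1 / 2 + I * (γ j : ℂ)) - (3 / Real.pi ^ 2 * X : ℝ) * Mt γ‖} ≤
      ENNReal.ofReal (H ^ k * X ^ (-δ)) := by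
  classical
  have h := all k hk hc hc4
  obtain ⟨C2, c2, H₀, hC2, hc2, hH₀, hm⟩ := mt_small k
  intro η A ε hη hε
  set e : ℝ := min (ε / 2) 1 with he
  have he0 : 0 < e := lt_min (by positivity) one_pos
  have heε : e ≤ ε / 2 := min_le_left _ _
  obtain ⟨δ1, X1, hδ1, h1⟩ := h η (|A| + 1) e hη he0 (min_le_right _ _)
  set d : ℝ := min δ1 (min (2 * e) c2) with hd
  have hd0 : 0 < d := lt_min hδ1 (lt_min (by positivity) hc2)
  have hd1 : d ≤ δ1 := min_le_left _ _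
  have hd2 : d ≤ 2 * e := (min_le_right _ _).trans (min_le_left _ _)
  have hd3 : d ≤ c2 := (min_le_right _ _).trans (min_le_right _ _)
  obtain ⟨X2, hX2⟩ : ∃ X2 : ℝ, ∀ X : ℝ, X2 ≤ X → 4 ≤ X ^ e := by
    obtain ⟨X2, h2⟩ := ((tendsto_rpow_atTop he0).eventually_ge_atTop 4).exists_forall_of_atTop
    exact ⟨X2, h2⟩
  obtain ⟨X3, hX3⟩ : ∃ X3 : ℝ, ∀ X : ℝ, X3 ≤ X → (2 : ℝ) ^ k * (2 ^ δ1 + C2 * 2) ≤ X ^ (d / 2) := by
    obtain ⟨X3, h3⟩ := ((tendsto_rpow_atTop (half_pos hd0)).eventually_ge_atTop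
      ((2 : ℝ) ^ k * (2 ^ δ1 + C2 * 2))).exists_forall_of_atTop
    exact ⟨X3, h3⟩
  refine ⟨d / 2, max (2 * X1 + 2) (max (max X2 X3) (max (H₀ + 4) (2 * 2 ^ |A|))), half_pos hd0, ?_⟩
  intro b X H hX hH1 hH2
  have g1 : 2 * (X1 : ℝ) + 2 ≤ X := (le_max_left _ _).trans hX
  have g2 : X2 ≤ X := (le_max_left _ _).trans ((le_max_left _ _).trans ((le_max_right _ _).trans hX))
  have g3 : X3 ≤ X := (le_max_right _ _).trans ((le_max_left _ _).trans ((le_max_right _ _).trans hX))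
  have g4 : H₀ + 4 ≤ X := (le_max_left _ _).trans ((le_max_right _ _).trans ((le_max_right _ _).trans hX))
  have g5 : 2 * (2 : ℝ) ^ |A| ≤ X :=
    (le_max_right _ _).trans ((le_max_right _ _).trans ((le_max_right _ _).trans hX))
  have hX1r : (1 : ℝ) ≤ X := by linarith
  have hX0 : (0 : ℝ) < X := by linarith
  have hXH : X ≤ H := by
    refine le_trans ?_ hH1
    conv_lhs => rw [← Real.rpow_one X]
    exact Real.rpow_le_rpow_of_exponent_le hX1r (by linarith)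
  have hH0 : 0 < H := by linarith
  have hHH : H₀ ≤ H := by linarith
  set N : ℕ := ⌈X⌉₊ - 1 with hN
  have hceil : 1 ≤ ⌈X⌉₊ := Nat.one_le_ceil_iff.2 hX0
  have hNc : (N : ℝ) + 1 = (⌈X⌉₊ : ℝ) := by
    rw [hN]
    push_cast [Nat.cast_sub hceil]
    ring
  have hN1 : (N : ℝ) ≤ X := by
    have := Nat.ceil_lt_add_one hX0.le
    linarith
  have hN2 : X ≤ N + 1 := by
    rw [hNc]
    exact Nat.le_ceil X
  have hN3 : X / 2 ≤ N := by linarith
  have hNr : (1 : ℝ) ≤ N := by linarith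
  have hN0 : (0 : ℝ) < N := by linarith
  have hNX1 : X1 ≤ N := by
    have : (X1 : ℝ) ≤ N := by linarith
    exact_mod_cast this
  have hNA : H ≤ (N : ℝ) ^ (|A| + 1) := by
    calc H ≤ X ^ A := hH2
      _ ≤ X ^ |A| := Real.rpow_le_rpow_of_exponent_le hX1r (le_abs_self A)
      _ ≤ (2 * N) ^ |A| := Real.rpow_le_rpow hX0.le (by linarith) (abs_nonneg A)
      _ = 2 ^ |A| * (N : ℝ) ^ |A| := Real.mul_rpow (by norm_num) hN0.le
      _ ≤ N * (N : ℝ) ^ |A| := by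
          refine mul_le_mul_of_nonneg_right ?_ (by positivity)
          linarith
      _ = (N : ℝ) ^ (|A| + 1) := by rw [Real.rpow_add hN0, Real.rpow_one, mul_comm]
  have hNH : (N : ℝ) ^ (1 + η) ≤ H := (Real.rpow_le_rpow hN0.le hN1 (by linarith)).trans hH1
  -- the set
  set F : (Fin k → ℝ) → ℂ := fun γ => ∑ p ∈ QFs b N, ∏ j, LL p (1 / 2 + I * (γ j : ℂ)) with hF
  set E : ℝ := X ^ (1 / 2 : ℝ) + X ^ (3 / 2 : ℝ) * H ^ (-(1 / 2) : ℝ) + X * H ^ (-c) with hE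
  have hE1 : 1 ≤ E := by
    have : 1 ≤ X ^ (1 / 2 : ℝ) := Real.one_le_rpow hX1r (by norm_num)
    have h5 : 0 ≤ X ^ (3 / 2 : ℝ) * H ^ (-(1 / 2) : ℝ) := by positivity
    have h6 : 0 ≤ X * H ^ (-c) := by positivity
    rw [hE]
    linarith
  have hFm : Measurable F := (cont_mom b N).measurable
  have hBm : MeasurableSet {γ : Fin k → ℝ | X ^ ε * E < ‖F γ - (3 / Real.pi ^ 2 * X : ℝ) * Mt γ‖} :=
    measurableSet_lt measurable_const (hFm.sub (meas_Mt.const_mul _)).norm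
  refine (cube_le hBm).trans ?_
  have hpt : ∀ σ : Fin k → Bool, mP (Fin k) H {γ | sv σ γ ∈
      {γ : Fin k → ℝ | X ^ ε * E < ‖F γ - (3 / Real.pi ^ 2 * X : ℝ) * Mt γ‖}} ≤
      ENNReal.ofReal ((2 ^ δ1 + C2 * 2) * (H ^ k * X ^ (-d))) := by
    intro σ
    have b1 := h1 σ b N H hNX1 hNH hNA
    have b2 := hm σ H (X ^ e) hHH (hX2 X g2)
    have hsub : {γ : Fin k → ℝ | sv σ γ ∈
        {γ : Fin k → ℝ | X ^ ε * E < ‖F γ - (3 / Real.pi ^ 2 * X : ℝ) * Mt γ‖}} ⊆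
        {γ | (N : ℝ) ^ e * ((N : ℝ) ^ (1 / 2 : ℝ) + (N : ℝ) ^ (3 / 2 : ℝ) * H ^ (-(1 / 2) : ℝ) + N * H ^ (-c)) <
          ‖∑ p ∈ QFs b N, ∏ j, LL p (1 / 2 + I * (sv σ γ j : ℂ)) - (3 / Real.pi ^ 2 * N : ℝ) * Mt (sv σ γ)‖} ∪
        {γ | X ^ e < ‖Mt (sv σ γ)‖} := by
      intro γ hγ
      by_contra hcon
      rw [Set.mem_union, not_or] at hcon
      have n1 : ‖∑ p ∈ QFs b N, ∏ j, LL p (1 / 2 + I * (sv σ γ j : ℂ)) -
          (3 / Real.pi ^ 2 * N : ℝ) * Mt (sv σ γ)‖ ≤ (N : ℝ) ^ e * ((N : ℝ) ^ (1 / 2 : ℝ) +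
          (N : ℝ) ^ (3 / 2 : ℝ) * H ^ (-(1 / 2) : ℝ) + N * H ^ (-c)) := not_lt.1 hcon.1
      have n2 : ‖Mt (sv σ γ)‖ ≤ X ^ e := not_lt.1 hcon.2
      have hγ' : X ^ ε * E < ‖F (sv σ γ) - (3 / Real.pi ^ 2 * X : ℝ) * Mt (sv σ γ)‖ := hγ
      have n3 : ‖F (sv σ γ) - (3 / Real.pi ^ 2 * N : ℝ) * Mt (sv σ γ)‖ ≤ X ^ e * E := by
        refine n1.trans ?_
        rw [hE]
        gcongr
      have n4 : ‖((3 / Real.pi ^ 2 * (X - N) : ℝ) : ℂ) * Mt (sv σ γ)‖ ≤ X ^ e * 1 := by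
        rw [norm_mul, Complex.norm_real]
        have hpi : 3 / Real.pi ^ 2 ≤ 1 := by
          rw [div_le_one (by positivity)]
          nlinarith [Real.pi_gt_three]
        have hpi0 : 0 ≤ 3 / Real.pi ^ 2 := by positivity
        rw [Real.norm_of_nonneg (mul_nonneg hpi0 (by linarith)), mul_comm (X ^ e) 1]
        refine mul_le_mul ?_ n2 (norm_nonneg _) zero_le_one
        calc 3 / Real.pi ^ 2 * (X - N) ≤ 1 * 1 := by
              refine mul_le_mul hpi (by linarith) (by linarith) zero_le_one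
          _ = 1 := one_mul 1
      have n5 : F (sv σ γ) - (3 / Real.pi ^ 2 * X : ℝ) * Mt (sv σ γ) =
          (F (sv σ γ) - (3 / Real.pi ^ 2 * N : ℝ) * Mt (sv σ γ)) -
          ((3 / Real.pi ^ 2 * (X - N) : ℝ) : ℂ) * Mt (sv σ γ) := by
        push_cast
        ring
      have n6 : ‖F (sv σ γ) - (3 / Real.pi ^ 2 * X : ℝ) * Mt (sv σ γ)‖ ≤ X ^ e * E + X ^ e * 1 := by
        rw [n5]
        exact (norm_sub_le _ _).trans (add_le_add n3 n4)
      have n7 : X ^ e * E + X ^ e * 1 ≤ X ^ ε * E := by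
        have q1 : 4 ≤ X ^ e := hX2 X g2
        have q2 : X ^ e * X ^ e ≤ X ^ ε := by
          rw [← Real.rpow_add hX0]
          exact Real.rpow_le_rpow_of_exponent_le hX1r (by linarith)
        have q3 : X ^ e * E + X ^ e * 1 ≤ X ^ e * (2 * E) := by nlinarith
        have q4 : X ^ e * (2 * E) ≤ X ^ e * X ^ e * E := by
          have : 2 * E ≤ X ^ e * E := by nlinarith
          calc X ^ e * (2 * E) ≤ X ^ e * (X ^ e * E) := mul_le_mul_of_nonneg_left this (by positivity)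
            _ = _ := by ring
        have q5 : X ^ e * X ^ e * E ≤ X ^ ε * E := mul_le_mul_of_nonneg_right q2 (by linarith)
        linarith
      exact absurd hγ' (not_lt.2 (n6.trans n7))
    refine (measure_mono hsub).trans ((measure_union_le _ _).trans ((add_le_add b1 b2).trans ?_))
    rw [← ENNReal.ofReal_add (by positivity) (by positivity)]
    refine ENNReal.ofReal_le_ofReal ?_
    have f1 : (N : ℝ) ^ (-δ1) ≤ 2 ^ δ1 * X ^ (-d) := by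
      calc (N : ℝ) ^ (-δ1) ≤ (X / 2) ^ (-δ1) := Real.rpow_le_rpow_of_nonpos (by positivity) hN3 (by linarith)
        _ = X ^ (-δ1) * (2 : ℝ) ^ δ1 := by
            rw [Real.div_rpow hX0.le (by norm_num), Real.rpow_neg (by norm_num : (0:ℝ) ≤ 2), div_inv_eq_mul]
        _ ≤ X ^ (-d) * (2 : ℝ) ^ δ1 := by
            refine mul_le_mul_of_nonneg_right ?_ (by positivity)
            exact Real.rpow_le_rpow_of_exponent_le hX1r (by linarith)
        _ = _ := mul_comm _ _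
    have f2 : 1 / (X ^ e) ^ 2 ≤ X ^ (-d) := by
      rw [one_div, ← Real.rpow_natCast, ← Real.rpow_mul hX0.le, ← Real.rpow_neg hX0.le]
      refine Real.rpow_le_rpow_of_exponent_le hX1r ?_
      push_cast
      linarith
    have f3 : H ^ (-c2) ≤ X ^ (-d) := by
      calc H ^ (-c2) ≤ X ^ (-c2) := Real.rpow_le_rpow_of_nonpos hX0 hXH (by linarith)
        _ ≤ X ^ (-d) := Real.rpow_le_rpow_of_exponent_le hX1r (by linarith)
    calc H ^ k * (N : ℝ) ^ (-δ1) + C2 * H ^ k * (1 / (X ^ e) ^ 2 + H ^ (-c2)) ≤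
          H ^ k * (2 ^ δ1 * X ^ (-d)) + C2 * H ^ k * (X ^ (-d) + X ^ (-d)) := by gcongr
      _ = _ := by ring
  refine (Finset.sum_le_sum fun σ _ => hpt σ).trans ?_
  rw [Finset.sum_const, Finset.card_univ, Fintype.card_fun, Fintype.card_fin, Fintype.card_bool,
    ← ENNReal.ofReal_nsmul]
  refine ENNReal.ofReal_le_ofReal ?_
  rw [nsmul_eq_mul]
  push_cast
  calc (2 : ℝ) ^ k * ((2 ^ δ1 + C2 * 2) * (H ^ k * X ^ (-d))) =
        ((2 : ℝ) ^ k * (2 ^ δ1 + C2 * 2)) * (H ^ k * X ^ (-d)) := by ring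
    _ ≤ X ^ (d / 2) * (H ^ k * X ^ (-d)) := mul_le_mul_of_nonneg_right (hX3 X g3) (by positivity)
    _ = H ^ k * (X ^ (d / 2) * X ^ (-d)) := by ring
    _ = H ^ k * X ^ (-(d / 2)) := by
        rw [← Real.rpow_add hX0]
        congr 2
        ring

/-- the theorem on the cube: the error term of the replacement of the diagonal sums is the geometric mean of
the two other ones -/
theorem cube2 (k : ℕ) (hk : 1 ≤ k) (η A ε : ℝ) (hη : 0 < η) (hε : 0 < ε) : ∃ δ X₀ : ℝ, 0 < δ ∧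
    ∀ (b : Bool) (X H : ℝ), X₀ ≤ X → X ^ (1 + η) ≤ H → H ≤ X ^ A →
    volume {γ : Fin k → ℝ | (∀ j, |γ j| ≤ H) ∧
      X ^ ε * (X ^ (1 / 2 : ℝ) + X ^ (3 / 2 : ℝ) * H ^ (-(1 / 2) : ℝ)) <
      ‖∑ p ∈ QFs b (⌈X⌉₊ - 1), ∏ j, LL p (1 / 2 + I * (γ j : ℂ)) - (3 / Real.pi ^ 2 * X : ℝ) * Mt γ‖} ≤
      ENNReal.ofReal (H ^ k * X ^ (-δ)) := by
  obtain ⟨e, he⟩ : ∃ e : ℝ, e = min (1 / 8) (ε / (4 * (|A| + 1))) := ⟨_, rfl⟩
  have hA1 : 0 < |A| + 1 := by positivity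
  have he0 : 0 < e := by
    rw [he]
    exact lt_min (by norm_num) (by positivity)
  have he1 : e ≤ 1 / 8 := by rw [he]; exact min_le_left _ _
  have he2 : |A| * e ≤ ε / 4 := by
    have h1 : e ≤ ε / (4 * (|A| + 1)) := by rw [he]; exact min_le_right _ _
    calc |A| * e ≤ (|A| + 1) * (ε / (4 * (|A| + 1))) := by
          refine mul_le_mul (by linarith) h1 he0.le hA1.le
      _ = ε / 4 := by field_simp
  obtain ⟨δ, X₀, hδ, h⟩ := cube k hk (c := 1 / 4 - e) (by linarith) (by linarith) η A (ε / 2) hη (by positivity)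
  obtain ⟨X1, hX1⟩ : ∃ X1 : ℝ, ∀ X : ℝ, X1 ≤ X → 2 ≤ X ^ (ε / 4) := by
    obtain ⟨X1, h3⟩ := ((tendsto_rpow_atTop (by positivity : 0 < ε / 4)).eventually_ge_atTop 2).exists_forall_of_atTop
    exact ⟨X1, h3⟩
  refine ⟨δ, max (max X₀ X1) 1, hδ, ?_⟩
  intro b X H hX hH1 hH2
  have hX0' : X₀ ≤ X := (le_max_left _ _).trans ((le_max_left _ _).trans hX)
  have hX1' : X1 ≤ X := (le_max_right _ _).trans ((le_max_left _ _).trans hX)
  have hX1r : 1 ≤ X := (le_max_right _ _).trans hX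
  have hX0 : 0 < X := by linarith
  have hH0 : 0 < H := lt_of_lt_of_le (by positivity) hH1
  have hHr : 1 ≤ H := (Real.one_le_rpow hX1r (by linarith)).trans hH1
  refine (measure_mono ?_).trans (h b X H hX0' hH1 hH2)
  rintro γ ⟨g1, g2⟩
  refine ⟨g1, lt_of_le_of_lt ?_ g2⟩
  obtain ⟨P, hP⟩ : ∃ P : ℝ, P = X ^ (1 / 4 : ℝ) := ⟨_, rfl⟩
  obtain ⟨Q, hQ⟩ : ∃ Q : ℝ, Q = X ^ (3 / 4 : ℝ) * H ^ (-(1 / 4) : ℝ) := ⟨_, rfl⟩
  have hP2 : X ^ (1 / 2 : ℝ) = P ^ 2 := by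
    rw [hP, ← Real.rpow_natCast, ← Real.rpow_mul hX0.le]
    norm_num
  have hQ2 : X ^ (3 / 2 : ℝ) * H ^ (-(1 / 2) : ℝ) = Q ^ 2 := by
    rw [hQ, mul_pow, ← Real.rpow_natCast, ← Real.rpow_natCast, ← Real.rpow_mul hX0.le, ← Real.rpow_mul hH0.le]
    norm_num
  have hPQ : X * H ^ (-(1 / 4) : ℝ) = P * Q := by
    rw [hP, hQ, ← mul_assoc, ← Real.rpow_add hX0]
    norm_num
  have hHe : H ^ e ≤ X ^ (ε / 4) := by
    calc H ^ e ≤ (X ^ |A|) ^ e := by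
          refine Real.rpow_le_rpow hH0.le (hH2.trans ?_) he0.le
          exact Real.rpow_le_rpow_of_exponent_le hX1r (le_abs_self A)
      _ = X ^ (|A| * e) := by rw [← Real.rpow_mul hX0.le]
      _ ≤ X ^ (ε / 4) := Real.rpow_le_rpow_of_exponent_le hX1r he2
  have h3 : X * H ^ (-(1 / 4 - e)) ≤ X ^ (ε / 4) * (P * Q) := by
    have e1 : H ^ (-(1 / 4 - e)) = H ^ e * H ^ (-(1 / 4) : ℝ) := by
      rw [← Real.rpow_add hH0]
      congr 1
      ring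
    calc X * H ^ (-(1 / 4 - e)) = H ^ e * (X * H ^ (-(1 / 4) : ℝ)) := by rw [e1]; ring
      _ = H ^ e * (P * Q) := by rw [hPQ]
      _ ≤ _ := mul_le_mul_of_nonneg_right hHe (by rw [← hPQ]; positivity)
  have hY : 2 ≤ X ^ (ε / 4) := hX1 X hX1'
  have hZ : X ^ ε = X ^ (ε / 2) * (X ^ (ε / 4) * X ^ (ε / 4)) := by
    rw [← Real.rpow_add hX0, ← Real.rpow_add hX0]
    congr 1
    ring
  obtain ⟨Y, hYd⟩ : ∃ Y : ℝ, Y = X ^ (ε / 4) := ⟨_, rfl⟩
  rw [← hYd] at h3 hY hZ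
  rw [hP2, hQ2, hZ, mul_assoc]
  refine mul_le_mul_of_nonneg_left ?_ (by positivity)
  have h4 : P * Q ≤ (P ^ 2 + Q ^ 2) / 2 := by nlinarith [sq_nonneg (P - Q)]
  have h5 : 0 ≤ P ^ 2 + Q ^ 2 := by positivity
  calc P ^ 2 + Q ^ 2 + X * H ^ (-(1 / 4 - e)) ≤ P ^ 2 + Q ^ 2 + Y * ((P ^ 2 + Q ^ 2) / 2) := by
        have := mul_le_mul_of_nonneg_left h4 (by linarith : 0 ≤ Y)
        linarith
    _ ≤ Y * Y * (P ^ 2 + Q ^ 2) := by nlinarith [mul_le_mul_of_nonneg_right hY h5]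

end

end Pool.Agent.H681.QF
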