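import Pool.Agent.H681.QF.MT

set_option autoImplicit false

/-!
Project QF: the assembly `main3` of the library (Y752/QF/Final3.lean, by helper752) with another
exponent in the main term.
-/

namespace Pool.Agent.H681.QF

open MeasureTheory Set Filter Complex Topology
open Pool.Agent.TH612.GS (mP zN SepA)
open Pool.Agent.TH521.GS (mor)
open Pool.Agent.Y752.QF
open scoped ENNReal

noncomputable section

theorem main3c (hOP : S_OP) (hW : S_WIN) (hR : S_REP3) (hIN : S_IN) (κ : ℝ) (hκ : 1 ≤ κ)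
    (hPL : S_PL3 κ) (hCJ : S_CJ) (k : ℕ) (hk : 1 ≤ k) (c c' : ℝ) (hc0 : 0 < c')
    (hMT : ∃ C H₀ : ℝ, 0 < C ∧ 1 ≤ H₀ ∧ ∀ (σ : Fin k → Bool) (H : ℝ), H₀ ≤ H →
      mP (Fin k) H {γ | H ^ (-c) < ‖DS ⌊H⌋₊ (sv σ γ) - Mt (sv σ γ)‖} ≤ ENNReal.ofReal (C * H ^ k * H ^ (-c')))
    (η A ε : ℝ) (hη : 0 < η) (hε : 0 < ε) (hε1 : ε ≤ 1) :
    ∃ (δ : ℝ) (X0 : ℕ), 0 < δ ∧
    ∀ (σ : Fin k → Bool) (b : Bool) (X : ℕ) (H : ℝ), X0 ≤ X → (X : ℝ) ^ (1 + η) ≤ H →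
    H ≤ (X : ℝ) ^ A →
    mP (Fin k) H {γ | (X : ℝ) ^ ε * ((X : ℝ) ^ (κ / 2) + (X : ℝ) ^ (3 / 2 : ℝ) * H ^ (-(1 / 2) : ℝ) +
        X * H ^ (-c)) <
      ‖∑ p ∈ QFs b X, ∏ j, LL p (1 / 2 + I * (sv σ γ j : ℂ)) -
        (3 / Real.pi ^ 2 * X : ℝ) * Mt (sv σ γ)‖} ≤
      ENNReal.ofReal (H ^ k * (X : ℝ) ^ (-δ)) := by
  classical
  set εM : ℝ := min (ε / 2) c' with hεM
  have hεM0 : 0 < εM := lt_min (by positivity) hc0
  have hεM2 : εM ≤ ε / 2 := min_le_left _ _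
  have hεMc : εM ≤ c' := min_le_right _ _
  obtain ⟨C3, X1, hC30, h1⟩ := partA3 hOP hW hR hIN hCJ k hk η A ε hη hε
  obtain ⟨C4, hC4, h4⟩ := hPL k A (ε / 2) (by positivity)
  obtain ⟨C5, H0, hC5, hH01, h5⟩ := hMT
  set δ : ℝ := εM / 2 with hδ
  have hδ0 : 0 < δ := by positivity
  obtain ⟨X3, hX3⟩ : ∃ X3 : ℕ, ∀ X : ℕ, X3 ≤ X → C3 + C4 + C5 + H0 + 3 ≤ (X : ℝ) ^ δ := by
    have h := (tendsto_rpow_atTop hδ0).comp tendsto_natCast_atTop_atTop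
    obtain ⟨X3, hX3⟩ := (h.eventually_ge_atTop (C3 + C4 + C5 + H0 + 3)).exists_forall_of_atTop
    exact ⟨X3, hX3⟩
  refine ⟨δ, X1 + X3 + 2, hδ0, ?_⟩
  intro σ b X H hX hH1 hH2
  have hX2' : 2 ≤ X := by omega
  have hX1' : 1 ≤ X := by omega
  have hXr : (2:ℝ) ≤ X := by exact_mod_cast hX2'
  have hX0 : (0:ℝ) < X := by linarith
  have hX1r : (1:ℝ) ≤ X := by linarith
  have hbig := hX3 X (by omega)
  have hXδ : (X : ℝ) ^ δ ≤ X := by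
    conv_rhs => rw [← Real.rpow_one (X : ℝ)]
    exact Real.rpow_le_rpow_of_exponent_le hX1r (by linarith)
  set F := QFs b X with hF
  have hXH : (X : ℝ) ≤ H := by
    refine le_trans ?_ hH1
    conv_lhs => rw [← Real.rpow_one (X : ℝ)]
    exact Real.rpow_le_rpow_of_exponent_le hX1r (by linarith)
  have hHH0 : H0 ≤ H := by linarith
  have hHpos : 0 < H := by linarith
  set Y : ℕ := ⌊H⌋₊ with hY
  have hYH : (Y : ℝ) ≤ H := Nat.floor_le hHpos.le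
  have hYX : X ≤ Y := Nat.le_floor hXH
  have hY1 : 1 ≤ Y := hX1'.trans hYX
  have b1 := h1 σ b X H (by omega) hH1 hH2
  have hYA : (Y : ℝ) ≤ (X : ℝ) ^ A := hYH.trans hH2
  have r2 := h4 σ b X Y H hX1' hY1 hYH hYA
  have hDSc : Continuous fun γ : Fin k → ℝ => DS Y (sv σ γ) := (DS_cont Y).comp (sv_cont σ)
  have hc2 : Continuous fun γ : Fin k → ℝ => ∑ p ∈ F, ∏ j, PY Y p (sv σ γ j) -
      (3 / Real.pi ^ 2 * X : ℝ) * DS Y (sv σ γ) := by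
    refine Continuous.sub ?_ (continuous_const.mul hDSc)
    exact continuous_finsetSum _ fun p _ =>
      continuous_finsetProd _ fun j _ => (PY_cont Y p).comp ((continuous_apply j).comp (sv_cont σ))
  have b2 := mk (θ := (X : ℝ) ^ (ε / 2) * (X : ℝ) ^ (κ / 2)) hc2 (by positivity) r2
  have b3 := h5 σ H hHH0
  -- the sizes
  obtain ⟨a, ha⟩ : ∃ a : ℝ, a = (X : ℝ) ^ (ε / 2) := ⟨_, rfl⟩
  obtain ⟨P1, hP1⟩ : ∃ P1 : ℝ, P1 = (X : ℝ) ^ (κ / 2) := ⟨_, rfl⟩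
  obtain ⟨P2, hP2⟩ : ∃ P2 : ℝ, P2 = (X : ℝ) ^ (3 / 2 : ℝ) * H ^ (-(1 / 2) : ℝ) := ⟨_, rfl⟩
  obtain ⟨P3, hP3⟩ : ∃ P3 : ℝ, P3 = X * H ^ (-c) := ⟨_, rfl⟩
  have ha0 : 0 < a := by rw [ha]; positivity
  have hP10 : 0 < P1 := by rw [hP1]; positivity
  have hP20 : 0 < P2 := by rw [hP2]; positivity
  have hP30 : 0 < P3 := by rw [hP3]; positivity
  have haa : (X : ℝ) ^ ε = a * a := by
    rw [ha, ← Real.rpow_add hX0]
    congr 1
    ring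
  have ha2 : 2 ≤ a := by
    have : (X : ℝ) ^ δ ≤ (X : ℝ) ^ (ε / 2) := Real.rpow_le_rpow_of_exponent_le hX1r (by
      rw [hδ]
      linarith)
    rw [ha]
    linarith
  have hhalf : (X : ℝ) ^ (1 / 2 : ℝ) ≤ P1 := by
    rw [hP1]
    exact Real.rpow_le_rpow_of_exponent_le hX1r (by linarith)
  rw [← ha, ← hP2] at b1
  rw [← ha, ← hP1] at b2
  rw [haa, ← hP1, ← hP2, ← hP3]
  have hpi : 3 / Real.pi ^ 2 ≤ 1 := by
    rw [div_le_one (by positivity)]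
    nlinarith [Real.pi_gt_three]
  have e3 : H ^ (-c) ≤ a * H ^ (-c) := by
    have h7 : 0 < H ^ (-c) := by positivity
    nlinarith
  -- union
  have hsub : {γ : Fin k → ℝ | a * a * (P1 + P2 + P3) <
      ‖∑ p ∈ F, ∏ j, LL p (1 / 2 + I * (sv σ γ j : ℂ)) - (3 / Real.pi ^ 2 * X : ℝ) * Mt (sv σ γ)‖} ⊆
      ({γ | a * ((X : ℝ) ^ (1 / 2 : ℝ) + P2) ≤
        ‖∑ p ∈ F, (∏ j, LL p (1 / 2 + I * (sv σ γ j : ℂ)) - ∏ j, PY Y p (sv σ γ j))‖} ∪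
        {γ | a * P1 ≤
          ‖∑ p ∈ F, ∏ j, PY Y p (sv σ γ j) - (3 / Real.pi ^ 2 * X : ℝ) * DS Y (sv σ γ)‖}) ∪
        {γ | H ^ (-c) < ‖DS Y (sv σ γ) - Mt (sv σ γ)‖} := by
    intro γ hγ
    by_contra hcon
    rw [Set.mem_union, Set.mem_union, not_or, not_or] at hcon
    obtain ⟨⟨n1, n2⟩, n3⟩ := hcon
    obtain ⟨U, hU⟩ : ∃ U : ℂ, U = ∑ p ∈ F, ∏ j, LL p (1 / 2 + I * (sv σ γ j : ℂ)) := ⟨_, rfl⟩
    obtain ⟨W, hW'⟩ : ∃ W : ℂ, W = ∑ p ∈ F, ∏ j, PY Y p (sv σ γ j) := ⟨_, rfl⟩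
    have n1' : ‖U - W‖ < a * ((X : ℝ) ^ (1 / 2 : ℝ) + P2) := by
      rw [hU, hW', ← Finset.sum_sub_distrib]
      exact not_le.1 n1
    have n2' : ‖W - (3 / Real.pi ^ 2 * X : ℝ) * DS Y (sv σ γ)‖ < a * P1 := by
      rw [hW']
      exact not_le.1 n2
    have n3' : ‖DS Y (sv σ γ) - Mt (sv σ γ)‖ ≤ H ^ (-c) := not_lt.1 n3
    have hγ' : a * a * (P1 + P2 + P3) < ‖U - (3 / Real.pi ^ 2 * X : ℝ) * Mt (sv σ γ)‖ := by
      rw [hU]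
      exact hγ
    have e2 : ‖((3 / Real.pi ^ 2 * X : ℝ) : ℂ) * (DS Y (sv σ γ) - Mt (sv σ γ))‖ ≤ a * P3 := by
      rw [norm_mul, Complex.norm_real, Real.norm_of_nonneg (by positivity)]
      calc 3 / Real.pi ^ 2 * X * ‖DS Y (sv σ γ) - Mt (sv σ γ)‖ ≤
            1 * X * (a * H ^ (-c)) := by
            have := n3'.trans e3
            gcongr
        _ = _ := by rw [hP3]; ring
    have e5 : ‖U - (3 / Real.pi ^ 2 * X : ℝ) * Mt (sv σ γ)‖ ≤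
        a * ((X : ℝ) ^ (1 / 2 : ℝ) + P2) + a * P1 + a * P3 := by
      have e1 : U - (3 / Real.pi ^ 2 * X : ℝ) * Mt (sv σ γ) = (U - W) +
        (W - (3 / Real.pi ^ 2 * X : ℝ) * DS Y (sv σ γ)) +
        (3 / Real.pi ^ 2 * X : ℝ) * (DS Y (sv σ γ) - Mt (sv σ γ)) := by ring
      rw [e1]
      refine (norm_add_le _ _).trans (add_le_add ((norm_add_le _ _).trans (add_le_add n1'.le n2'.le)) e2)
    have e6 : a * ((X : ℝ) ^ (1 / 2 : ℝ) + P2) + a * P1 + a * P3 ≤ a * (2 * (P1 + P2 + P3)) := by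
      have : a * ((X : ℝ) ^ (1 / 2 : ℝ) + P2) + a * P1 + a * P3 =
        a * ((X : ℝ) ^ (1 / 2 : ℝ) + P2 + P1 + P3) := by ring
      rw [this]
      refine mul_le_mul_of_nonneg_left ?_ ha0.le
      linarith
    have e7 : a * (2 * (P1 + P2 + P3)) ≤ a * a * (P1 + P2 + P3) := by
      have : a * (2 * (P1 + P2 + P3)) = a * 2 * (P1 + P2 + P3) := by ring
      rw [this]
      refine mul_le_mul_of_nonneg_right ?_ (by positivity)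
      exact mul_le_mul_of_nonneg_left ha2 ha0.le
    exact absurd hγ' (not_lt.2 (e5.trans (e6.trans e7)))
  refine (measure_mono hsub).trans ((measure_union_le _ _).trans (le_trans (add_le_add
    ((measure_union_le _ _).trans (add_le_add b1 b2)) b3) ?_))
  rw [← ENNReal.ofReal_add (by positivity) (by positivity),
    ← ENNReal.ofReal_add (by positivity) (by positivity)]
  refine ENNReal.ofReal_le_ofReal ?_
  have hεδ : (X : ℝ) ^ (-(ε / 2)) ≤ (X : ℝ) ^ (-εM) :=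
    Real.rpow_le_rpow_of_exponent_le hX1r (by linarith)
  have f1 : C3 * (X : ℝ) ^ (-(ε / 2)) * H ^ k ≤ C3 * (X : ℝ) ^ (-εM) * H ^ k := by gcongr
  have f2 : C4 * (X : ℝ) ^ (κ + ε / 2) * H ^ k / (a * P1) ^ 2 ≤
      C4 * (X : ℝ) ^ (-εM) * H ^ k := by
    rw [div_le_iff₀ (by positivity)]
    have h6 : (a * P1) ^ 2 = (X : ℝ) ^ (κ + ε) := by
      rw [ha, hP1, ← Real.rpow_add hX0, ← Real.rpow_natCast, ← Real.rpow_mul hX0.le]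
      congr 1
      push_cast
      ring
    have h7 : (X : ℝ) ^ (κ + ε / 2) = (X : ℝ) ^ (-(ε / 2)) * (X : ℝ) ^ (κ + ε) := by
      rw [← Real.rpow_add hX0]
      congr 1
      ring
    rw [h6, h7]
    calc C4 * ((X : ℝ) ^ (-(ε / 2)) * (X : ℝ) ^ (κ + ε)) * H ^ k =
          C4 * (X : ℝ) ^ (-(ε / 2)) * H ^ k * (X : ℝ) ^ (κ + ε) := by ring
      _ ≤ _ := by gcongr
  have f3 : C5 * H ^ k * H ^ (-c') ≤ C5 * (X : ℝ) ^ (-εM) * H ^ k := by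
    have : H ^ (-c') ≤ (X : ℝ) ^ (-εM) := by
      calc H ^ (-c') ≤ (X : ℝ) ^ (-c') := Real.rpow_le_rpow_of_nonpos hX0 hXH (by linarith)
        _ ≤ (X : ℝ) ^ (-εM) := Real.rpow_le_rpow_of_exponent_le hX1r (by linarith)
    calc C5 * H ^ k * H ^ (-c') ≤ C5 * H ^ k * (X : ℝ) ^ (-εM) := by gcongr
      _ = _ := by ring
  have f4 : (C3 + C4 + C5) * (X : ℝ) ^ (-εM) ≤ (X : ℝ) ^ (-δ) := by
    have : (X : ℝ) ^ (-δ) = (X : ℝ) ^ δ * (X : ℝ) ^ (-εM) := by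
      rw [← Real.rpow_add hX0]
      congr 1
      rw [hδ]
      ring
    rw [this]
    gcongr
    linarith
  calc _ ≤ C3 * (X : ℝ) ^ (-εM) * H ^ k + C4 * (X : ℝ) ^ (-εM) * H ^ k + C5 * (X : ℝ) ^ (-εM) * H ^ k := by
        gcongr
    _ = H ^ k * ((C3 + C4 + C5) * (X : ℝ) ^ (-εM)) := by ring
    _ ≤ _ := by gcongr


end

end Pool.Agent.H681.QF
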