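import Pool.Agent.H681.QF.Wmv
import Pool.Graph.R_pool_sql_team_seeded_63374d34.N879.QM.Coef

set_option autoImplicit false

/-!
Project QF: hyperbolic sums of products over sets of pairs, and the removed parts.
-/

namespace Pool.Agent.H681.QF.P

open Complex Finset
open scoped BigOperators
open Pool.Agent.N879.QM Pool.Agent.N879.QM.Coef
open Pool.Agent.Y532.QF (chs)

noncomputable section

variable {k : ℕ}

/-- tuples with entries in `[1,V]` on `S` and `1` elsewhere -/
def piF (S : Finset (Pr k)) (V : ℕ) : Finset (Pr k → ℕ) :=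
  Fintype.piFinset fun r => if r ∈ S then Finset.Icc 1 V else {1}

lemma mem_piF {S : Finset (Pr k)} {V : ℕ} {g : Pr k → ℕ} :
    g ∈ piF S V ↔ ∀ r, (r ∈ S → 1 ≤ g r ∧ g r ≤ V) ∧ (r ∉ S → g r = 1) := by
  unfold piF
  rw [Fintype.mem_piFinset]
  refine forall_congr' fun r => ?_
  by_cases h : r ∈ S
  · simp [h]
  · simp [h]

lemma piF_pos {S : Finset (Pr k)} {V : ℕ} {g : Pr k → ℕ} (hg : g ∈ piF S V) (r : Pr k) : 1 ≤ g r := by
  have h := mem_piF.1 hg r
  by_cases hr : r ∈ S
  · exact (h.1 hr).1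
  · rw [h.2 hr]

/-- the character -/
def Ph (β : Fin k → ℝ) (g : Pr k → ℕ) : ℂ := ∏ r, ph (pp β r) (g r)

/-- the hyperbolic sum -/
def PS (S : Finset (Pr k)) (V : ℕ) (β : Fin k → ℝ) : ℂ :=
  ∑ g ∈ (piF S V).filter (fun g => ∏ r, g r ≤ V), Ph β g

/-- the removed region -/
def RB (S : Finset (Pr k)) (r0 : Pr k) (V : ℕ) : Finset (Pr k → ℕ) :=
  (piF (insert r0 S) V).filter (fun g => (∏ r ∈ Finset.univ.erase r0, g r) ≤ V ∧ V < ∏ r, g r)

/-- the removed part -/
def RS (S : Finset (Pr k)) (r0 : Pr k) (V : ℕ) (β : Fin k → ℝ) : ℂ := ∑ g ∈ RB S r0 V, Ph β g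

lemma insert_sum {S : Finset (Pr k)} {r0 : Pr k} (h0 : r0 ∉ S) (V : ℕ) (F : (Pr k → ℕ) → ℂ) :
    ∑ g ∈ piF (insert r0 S) V, F g =
      ∑ g ∈ piF S V, ∑ n ∈ Finset.Icc 1 V, F (Function.update g r0 n) := by
  rw [← Finset.sum_product']
  refine Finset.sum_bij' (fun g _ => (Function.update g r0 1, g r0))
    (fun q _ => Function.update q.1 r0 q.2) ?_ ?_ ?_ ?_ ?_
  · intro g hg
    rw [mem_piF] at hg
    rw [Finset.mem_product, mem_piF, Finset.mem_Icc]
    refine ⟨fun r => ?_, (hg r0).1 (Finset.mem_insert_self _ _)⟩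
    simp only
    rcases eq_or_ne r r0 with rfl | hr
    · rw [Function.update_self]
      exact ⟨fun h => absurd h h0, fun _ => rfl⟩
    · rw [Function.update_of_ne hr]
      exact ⟨fun h => (hg r).1 (Finset.mem_insert_of_mem h),
        fun h => (hg r).2 (by rw [Finset.mem_insert, not_or]; exact ⟨hr, h⟩)⟩
  · rintro ⟨g, n⟩ hq
    rw [Finset.mem_product, mem_piF, Finset.mem_Icc] at hq
    rw [mem_piF]
    intro r
    simp only
    rcases eq_or_ne r r0 with rfl | hr
    · rw [Function.update_self]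
      exact ⟨fun _ => hq.2, fun h => absurd (Finset.mem_insert_self _ _) h⟩
    · rw [Function.update_of_ne hr]
      refine ⟨fun h => (hq.1 r).1 ((Finset.mem_insert.1 h).resolve_left hr),
        fun h => (hq.1 r).2 fun h' => h (Finset.mem_insert_of_mem h')⟩
  · intro g _
    simp
  · rintro ⟨g, n⟩ hq
    rw [Finset.mem_product, mem_piF] at hq
    have h1 : g r0 = 1 := (hq.1 r0).2 h0
    simp only [Function.update_self, Function.update_idem, Prod.mk.injEq, and_true]
    rw [← h1, Function.update_eq_self]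
  · intro g _
    simp

lemma prod_upd (g : Pr k → ℕ) (r0 : Pr k) (n : ℕ) :
    ∏ r, Function.update g r0 n r = n * ∏ r ∈ Finset.univ.erase r0, g r := by
  rw [← Finset.mul_prod_erase _ _ (Finset.mem_univ r0), Function.update_self]
  congr 1
  refine Finset.prod_congr rfl fun r hr => ?_
  rw [Function.update_of_ne (Finset.ne_of_mem_erase hr)]

lemma prod_er (g : Pr k → ℕ) (r0 : Pr k) (n : ℕ) :
    ∏ r ∈ Finset.univ.erase r0, Function.update g r0 n r = ∏ r ∈ Finset.univ.erase r0, g r := by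
  refine Finset.prod_congr rfl fun r hr => ?_
  rw [Function.update_of_ne (Finset.ne_of_mem_erase hr)]

lemma prod_one {g : Pr k → ℕ} {r0 : Pr k} (h : g r0 = 1) :
    ∏ r, g r = ∏ r ∈ Finset.univ.erase r0, g r := by
  rw [← Finset.mul_prod_erase _ _ (Finset.mem_univ r0), h, one_mul]

lemma Ph_upd (β : Fin k → ℝ) {g : Pr k → ℕ} {r0 : Pr k} (h : g r0 = 1) (n : ℕ) :
    Ph β (Function.update g r0 n) = Ph β g * ph (pp β r0) n := by
  unfold Ph
  rw [← Finset.mul_prod_erase _ _ (Finset.mem_univ r0), Function.update_self,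
    ← Finset.mul_prod_erase _ (fun r => ph (pp β r) (g r)) (Finset.mem_univ r0), h, map_one, one_mul, mul_comm]
  congr 1
  refine Finset.prod_congr rfl fun r hr => ?_
  rw [Function.update_of_ne (Finset.ne_of_mem_erase hr)]

/-- one more pair -/
lemma step {S : Finset (Pr k)} {r0 : Pr k} (h0 : r0 ∉ S) (V : ℕ) (β : Fin k → ℝ) :
    PS S V β * zN V (pp β r0) = PS (insert r0 S) V β + RS S r0 V β := by
  have e1 : PS S V β * zN V (pp β r0) = ∑ g ∈ piF S V, ∑ n ∈ Finset.Icc 1 V,
      if ∏ r, g r ≤ V then Ph β g * ph (pp β r0) n else 0 := by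
    unfold PS zN
    rw [Finset.sum_mul, Finset.sum_filter]
    refine Finset.sum_congr rfl fun g _ => ?_
    split_ifs with h
    · rw [Finset.mul_sum]
      rfl
    · simp
  have e2 : PS (insert r0 S) V β = ∑ g ∈ piF S V, ∑ n ∈ Finset.Icc 1 V,
      if n * ∏ r, g r ≤ V then Ph β g * ph (pp β r0) n else 0 := by
    unfold PS
    rw [Finset.sum_filter, insert_sum h0]
    refine Finset.sum_congr rfl fun g hg => Finset.sum_congr rfl fun n _ => ?_
    have h1 : g r0 = 1 := (mem_piF.1 hg r0).2 h0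
    rw [prod_upd, Ph_upd β h1, prod_one h1]
  have e3 : RS S r0 V β = ∑ g ∈ piF S V, ∑ n ∈ Finset.Icc 1 V,
      if ∏ r, g r ≤ V ∧ V < n * ∏ r, g r then Ph β g * ph (pp β r0) n else 0 := by
    unfold RS RB
    rw [Finset.sum_filter, insert_sum h0]
    refine Finset.sum_congr rfl fun g hg => Finset.sum_congr rfl fun n _ => ?_
    have h1 : g r0 = 1 := (mem_piF.1 hg r0).2 h0
    rw [prod_upd, Ph_upd β h1, prod_er, prod_one h1]
  rw [e1, e2, e3, ← Finset.sum_add_distrib]
  refine Finset.sum_congr rfl fun g _ => ?_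
  rw [← Finset.sum_add_distrib]
  refine Finset.sum_congr rfl fun n hn => ?_
  have hn1 := (Finset.mem_Icc.1 hn).1
  by_cases h1 : ∏ r, g r ≤ V
  · by_cases h2 : n * ∏ r, g r ≤ V
    · rw [if_pos h1, if_pos h2, if_neg (by rw [not_and]; intro _; exact not_lt.2 h2), add_zero]
    · rw [if_pos h1, if_neg h2, if_pos ⟨h1, not_le.1 h2⟩, zero_add]
  · have h2 : ¬ n * ∏ r, g r ≤ V := by
      intro h3
      exact h1 ((Nat.le_mul_of_pos_left _ (by omega)).trans h3)
    rw [if_neg h1, if_neg h2, if_neg (fun h => h1 h.1), add_zero]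

lemma PS_empty {V : ℕ} (hV : 1 ≤ V) (β : Fin k → ℝ) : PS ∅ V β = 1 := by
  unfold PS
  have : (piF (∅ : Finset (Pr k)) V).filter (fun g => ∏ r, g r ≤ V) = {fun _ => 1} := by
    ext g
    rw [Finset.mem_filter, Finset.mem_singleton, mem_piF]
    constructor
    · rintro ⟨h, -⟩
      funext r
      exact (h r).2 (Finset.notMem_empty _)
    · rintro rfl
      simp [hV]
  rw [this, Finset.sum_singleton]
  unfold Ph
  simp

/-- the difference -/
def DD (S : Finset (Pr k)) (V : ℕ) (β : Fin k → ℝ) : ℂ := ∏ r ∈ S, riemannZeta (pp β r) - PS S V β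

lemma DD_insert {S : Finset (Pr k)} {r0 : Pr k} (h0 : r0 ∉ S) (V : ℕ) (β : Fin k → ℝ) :
    DD (insert r0 S) V β = riemannZeta (pp β r0) * DD S V β +
      PS S V β * (riemannZeta (pp β r0) - zN V (pp β r0)) + RS S r0 V β := by
  unfold DD
  rw [Finset.prod_insert h0]
  have := step h0 V β
  linear_combination this

/-! ### sizes -/

lemma norm_ph (β : Fin k → ℝ) (r : Pr k) {n : ℕ} (hn : 1 ≤ n) : ‖ph (pp β r) n‖ = (n : ℝ)⁻¹ := by
  rw [ph_apply, Complex.norm_natCast_cpow_of_pos (by omega), ← Real.rpow_neg_one]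
  congr 1
  unfold pp
  simp

lemma norm_Ph (β : Fin k → ℝ) {g : Pr k → ℕ} (hg : ∀ r, 1 ≤ g r) : ‖Ph β g‖ = ∏ r, ((g r : ℝ))⁻¹ := by
  unfold Ph
  rw [norm_prod]
  exact Finset.prod_congr rfl fun r _ => norm_ph β r (hg r)

lemma harm (V : ℕ) : ∑ n ∈ Finset.Icc 1 V, (n : ℝ)⁻¹ ≤ 1 + Real.log V := by
  have h := harmonic_le_one_add_log V
  rw [harmonic_eq_sum_Icc] at h
  push_cast at h
  exact h

lemma LL_le (S : Finset (Pr k)) {V : ℕ} (hV : 1 ≤ V) :
    ∑ g ∈ piF S V, ∏ r, ((g r : ℝ))⁻¹ ≤ (1 + Real.log V) ^ Fintype.card (Pr k) := by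
  have hL : 0 ≤ Real.log V := Real.log_nonneg (by exact_mod_cast hV)
  unfold piF
  rw [← Finset.prod_univ_sum (fun r : Pr k => if r ∈ S then Finset.Icc 1 V else {1})
    (fun _ n => ((n : ℝ))⁻¹)]
  have : (1 + Real.log V) ^ Fintype.card (Pr k) = ∏ _r : Pr k, (1 + Real.log V) := by
    rw [Finset.prod_const, Finset.card_univ]
  rw [this]
  refine Finset.prod_le_prod (fun r _ => Finset.sum_nonneg fun n _ => by positivity) fun r _ => ?_
  by_cases h : r ∈ S
  · rw [if_pos h]
    exact harm V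
  · rw [if_neg h, Finset.sum_singleton]
    simp only [Nat.cast_one, inv_one]
    linarith

lemma PS_le (S : Finset (Pr k)) {V : ℕ} (hV : 1 ≤ V) (β : Fin k → ℝ) :
    ‖PS S V β‖ ≤ (1 + Real.log V) ^ Fintype.card (Pr k) := by
  unfold PS
  refine (norm_sum_le _ _).trans (le_trans ?_ (LL_le S hV))
  calc ∑ g ∈ (piF S V).filter (fun g => ∏ r, g r ≤ V), ‖Ph β g‖ =
        ∑ g ∈ (piF S V).filter (fun g => ∏ r, g r ≤ V), ∏ r, ((g r : ℝ))⁻¹ :=
        Finset.sum_congr rfl fun g hg => norm_Ph β (piF_pos (Finset.mem_filter.1 hg).1)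
    _ ≤ _ := Finset.sum_le_sum_of_subset_of_nonneg (Finset.filter_subset _ _)
        fun _ _ _ => Finset.prod_nonneg fun _ _ => by positivity

/-- the character in the variables -/
lemma Ph_chs (β : Fin k → ℝ) {g : Pr k → ℕ} (hg : ∀ r, 1 ≤ g r) :
    Ph β g = (((∏ r, (g r : ℝ))⁻¹ : ℝ) : ℂ) * ∏ j, chs (EE g j) (β j) := by
  have h1 : Ph β g = cx (EE g) β := (cx_EE g (fun r => by have := hg r; omega) β).symm
  rw [h1]
  unfold cx
  have h2 : ∀ j, ((EE g j : ℕ) : ℂ) ^ (-(pt (β j))) =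
      (((EE g j : ℝ) ^ (-(1 / 2) : ℝ) : ℝ) : ℂ) * chs (EE g j) (β j) := by
    intro j
    have hj : (0 : ℝ) < EE g j := by exact_mod_cast EE_pos hg j
    unfold chs pt
    have : (-(1 / 2 + I * (β j : ℂ))) = ((-(1 / 2) : ℝ) : ℂ) + (-(I * (β j : ℂ))) := by
      push_cast
      ring
    rw [this, Complex.cpow_add _ _ (by exact_mod_cast hj.ne'), Complex.ofReal_cpow hj.le]
    simp
  simp_rw [h2]
  rw [Finset.prod_mul_distrib]
  congr 1
  rw [← Complex.ofReal_prod]
  congr 1
  rw [Real.finsetProd_rpow _ _ fun j _ => by positivity, ← Nat.cast_prod, prod_EE]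
  have h3 : (0 : ℝ) ≤ ∏ r, (g r : ℝ) := Finset.prod_nonneg fun _ _ => by positivity
  push_cast
  rw [← Real.rpow_natCast, ← Real.rpow_mul h3, ← Real.rpow_neg_one]
  norm_num

/-- the weights -/
lemma weight {S : Finset (Pr k)} {r0 : Pr k} {V : ℕ} {A : ℝ} (hA : 1 ≤ A) (hV : (V : ℝ) ^ 2 ≤ A)
    {g : Pr k → ℕ} (hg : g ∈ RB S r0 V) :
    (∏ r, (g r : ℝ))⁻¹ ^ 2 * ∏ j, (A + EE g j) ≤ (2 * A) ^ k * (5 / V) * ∏ r, ((g r : ℝ))⁻¹ := by
  have hA0 : 0 < A := by linarith
  obtain ⟨hg1, hg2, hg3⟩ := Finset.mem_filter.1 hg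
  have hpos := piF_pos hg1
  have hr0 : g r0 ≤ V := ((mem_piF.1 hg1 r0).1 (Finset.mem_insert_self _ _)).2
  obtain ⟨n, hn⟩ : ∃ n : ℝ, n = g r0 := ⟨_, rfl⟩
  obtain ⟨p, hp⟩ : ∃ p : ℝ, p = ∏ r ∈ Finset.univ.erase r0, (g r : ℝ) := ⟨_, rfl⟩
  have hn1 : 1 ≤ n := by rw [hn]; exact_mod_cast hpos r0
  have hnV : n ≤ V := by rw [hn]; exact_mod_cast hr0
  have hp1 : 1 ≤ p := by
    rw [hp]
    have : 0 < ∏ r ∈ Finset.univ.erase r0, g r := Finset.prod_pos fun r _ => hpos r
    exact_mod_cast this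
  have hpV : p ≤ V := by
    rw [hp]
    exact_mod_cast hg2
  have hprod : ∏ r, (g r : ℝ) = n * p := by
    rw [← Finset.mul_prod_erase _ _ (Finset.mem_univ r0), ← hn, ← hp]
  have hnp : (V : ℝ) ≤ n * p := by
    rw [← hprod]
    exact_mod_cast hg3.le
  have hV1 : (1 : ℝ) ≤ V := hn1.trans hnV
  have hV0 : (0 : ℝ) < V := by linarith
  have hn0 : 0 < n := by linarith
  have hp0 : 0 < p := by linarith
  -- the parts without the pair `r0`
  set h : Pr k → ℕ := Function.update g r0 1 with hh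
  have hhpos : ∀ r, 1 ≤ h r := by
    intro r
    rw [hh]
    rcases eq_or_ne r r0 with rfl | hr
    · rw [Function.update_self]
    · rw [Function.update_of_ne hr]
      exact hpos r
  have hEE : ∀ j, EE g j = g r0 ^ ex r0 j * EE h j := by
    intro j
    unfold EE
    rw [← Finset.mul_prod_erase _ _ (Finset.mem_univ r0),
      ← Finset.mul_prod_erase _ (fun r => h r ^ ex r j) (Finset.mem_univ r0), hh, Function.update_self,
      one_pow, one_mul]
    congr 1
    refine Finset.prod_congr rfl fun r hr => ?_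
    rw [Function.update_of_ne (Finset.ne_of_mem_erase hr)]
  have hB : ∏ j, ((EE h j : ℕ) : ℝ) = p ^ 2 := by
    rw [← Nat.cast_prod, prod_EE]
    push_cast
    congr 1
    rw [hp, ← Finset.mul_prod_erase _ _ (Finset.mem_univ r0), hh, Function.update_self, Nat.cast_one, one_mul]
    refine Finset.prod_congr rfl fun r hr => ?_
    rw [Function.update_of_ne (Finset.ne_of_mem_erase hr)]
  have hB1 : ∀ j, (1 : ℝ) ≤ EE h j := fun j => by exact_mod_cast EE_pos hhpos j
  have hBle : ∀ T : Finset (Fin k), ∏ j ∈ T, ((EE h j : ℕ) : ℝ) ≤ p ^ 2 := by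
    intro T
    rw [← hB]
    have h1 : ∏ j ∈ T, EE h j ∣ ∏ j, EE h j := Finset.prod_dvd_prod_of_subset _ _ _ (Finset.subset_univ T)
    have h2 : ∏ j ∈ T, EE h j ≤ ∏ j, EE h j :=
      Nat.le_of_dvd (Finset.prod_pos fun j _ => EE_pos hhpos j) h1
    exact_mod_cast h2
  have hBle1 : ∀ j, ((EE h j : ℕ) : ℝ) ≤ p ^ 2 := fun j => by
    have := hBle {j}
    rwa [Finset.prod_singleton] at this
  have hp2 : p ^ 2 ≤ A := (pow_le_pow_left₀ hp0.le hpV 2).trans hV
  have hoff : ∀ j, j ≠ r0.1.1 → j ≠ r0.1.2 → A + ((EE g j : ℕ) : ℝ) ≤ 2 * A := by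
    intro j h1 h2
    have : ex r0 j = 0 := by
      unfold ex
      rw [if_neg (Ne.symm h1), if_neg (Ne.symm h2)]
    rw [hEE, this, pow_zero, one_mul]
    linarith [hBle1 j]
  have h2A : 0 ≤ 2 * A := by linarith
  -- the product
  have hK : ∏ j, (A + ((EE g j : ℕ) : ℝ)) ≤
      (2 * A) ^ k * (1 + n ^ 2 * p / A + 2 * (n * p ^ 2) / A + n ^ 2 * p ^ 2 / A ^ 2) := by
    by_cases hab : r0.1.1 = r0.1.2
    · -- a loop
      have h1 : ((EE h r0.1.1 : ℕ) : ℝ) ≤ p := by
        have h2 : EE h r0.1.1 ≤ ∏ r ∈ Finset.univ.erase r0, g r := by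
          unfold EE
          rw [← Finset.mul_prod_erase _ _ (Finset.mem_univ r0), hh, Function.update_self, one_pow, one_mul]
          refine Finset.prod_le_prod' fun r hr => ?_
          rw [Function.update_of_ne (Finset.ne_of_mem_erase hr)]
          have h3 : ex r r0.1.1 ≤ 1 := by
            unfold ex
            by_contra hcon
            have h4 : r.1.1 = r0.1.1 ∧ r.1.2 = r0.1.1 := by
              by_cases c1 : r.1.1 = r0.1.1
              · by_cases c2 : r.1.2 = r0.1.1
                · exact ⟨c1, c2⟩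
                · rw [if_pos c1, if_neg c2] at hcon
                  omega
              · rw [if_neg c1] at hcon
                split_ifs at hcon <;> omega
            apply Finset.ne_of_mem_erase hr
            apply Subtype.ext
            apply Prod.ext
            · exact h4.1
            · rw [h4.2, hab]
          calc g r ^ ex r r0.1.1 ≤ g r ^ 1 := Nat.pow_le_pow_right (hpos r) h3
            _ = g r := pow_one _
        rw [hp]
        exact_mod_cast h2
      have h5 : ((EE g r0.1.1 : ℕ) : ℝ) ≤ n ^ 2 * p := by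
        have h6 : ex r0 r0.1.1 = 2 := by
          unfold ex
          rw [if_pos rfl, if_pos hab.symm]
        rw [hEE, h6]
        push_cast
        rw [← hn]
        exact mul_le_mul_of_nonneg_left h1 (by positivity)
      rw [← Finset.mul_prod_erase _ _ (Finset.mem_univ r0.1.1)]
      have h7 : ∏ j ∈ Finset.univ.erase r0.1.1, (A + ((EE g j : ℕ) : ℝ)) ≤ (2 * A) ^ (k - 1) := by
        calc _ ≤ ∏ _j ∈ (Finset.univ : Finset (Fin k)).erase r0.1.1, (2 * A) := by
              refine Finset.prod_le_prod (fun j _ => by positivity) fun j hj => ?_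
              have := Finset.ne_of_mem_erase hj
              exact hoff j this (by rw [← hab]; exact this)
          _ = (2 * A) ^ (k - 1) := by
              rw [Finset.prod_const, Finset.card_erase_of_mem (Finset.mem_univ _), Finset.card_univ,
                Fintype.card_fin]
      have hk : 1 ≤ k := by
        have := r0.1.1.isLt
        omega
      calc (A + ((EE g r0.1.1 : ℕ) : ℝ)) * ∏ j ∈ Finset.univ.erase r0.1.1, (A + ((EE g j : ℕ) : ℝ)) ≤
            (A + n ^ 2 * p) * (2 * A) ^ (k - 1) := by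
            refine mul_le_mul (by linarith) h7 (Finset.prod_nonneg fun _ _ => by positivity) (by positivity)
        _ = A * (2 * A) ^ (k - 1) * (1 + n ^ 2 * p / A) := by
            field_simp
        _ ≤ (2 * A) * (2 * A) ^ (k - 1) * (1 + n ^ 2 * p / A + 2 * (n * p ^ 2) / A + n ^ 2 * p ^ 2 / A ^ 2) := by
            have q1 : 0 ≤ 2 * (n * p ^ 2) / A := by positivity
            have q2 : 0 ≤ n ^ 2 * p ^ 2 / A ^ 2 := by positivity
            refine mul_le_mul ?_ (by linarith) (by positivity) (by positivity)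
            refine mul_le_mul_of_nonneg_right (by linarith) (by positivity)
        _ = _ := by
            rw [← pow_succ', Nat.sub_add_cancel hk]
    · -- two different variables
      have h1 : ex r0 r0.1.1 = 1 := by
        unfold ex
        rw [if_pos rfl, if_neg (Ne.symm hab)]
      have h2 : ex r0 r0.1.2 = 1 := by
        unfold ex
        rw [if_neg hab, if_pos rfl]
      have hne : r0.1.2 ∈ (Finset.univ : Finset (Fin k)).erase r0.1.1 :=
        Finset.mem_erase.2 ⟨Ne.symm hab, Finset.mem_univ _⟩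
      rw [← Finset.mul_prod_erase _ _ (Finset.mem_univ r0.1.1), ← Finset.mul_prod_erase _ _ hne]
      obtain ⟨a, ha⟩ : ∃ a : ℝ, a = (EE h r0.1.1 : ℕ) := ⟨_, rfl⟩
      obtain ⟨b, hb⟩ : ∃ b : ℝ, b = (EE h r0.1.2 : ℕ) := ⟨_, rfl⟩
      have ha1 : 1 ≤ a := by rw [ha]; exact hB1 _
      have hb1 : 1 ≤ b := by rw [hb]; exact hB1 _
      have hap : a ≤ p ^ 2 := by rw [ha]; exact hBle1 _
      have hbp : b ≤ p ^ 2 := by rw [hb]; exact hBle1 _
      have habp : a * b ≤ p ^ 2 := by
        have := hBle {r0.1.1, r0.1.2}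
        rw [Finset.prod_pair hab] at this
        rw [ha, hb]
        exact this
      have e1 : ((EE g r0.1.1 : ℕ) : ℝ) = n * a := by
        rw [hEE, h1, pow_one, hn, ha]
        push_cast
        ring
      have e2 : ((EE g r0.1.2 : ℕ) : ℝ) = n * b := by
        rw [hEE, h2, pow_one, hn, hb]
        push_cast
        ring
      have h7 : ∏ j ∈ ((Finset.univ : Finset (Fin k)).erase r0.1.1).erase r0.1.2, (A + ((EE g j : ℕ) : ℝ)) ≤
          (2 * A) ^ (k - 2) := by
        calc _ ≤ ∏ _j ∈ ((Finset.univ : Finset (Fin k)).erase r0.1.1).erase r0.1.2, (2 * A) := by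
              refine Finset.prod_le_prod (fun j _ => by positivity) fun j hj => ?_
              have q1 := Finset.ne_of_mem_erase hj
              have q2 := Finset.ne_of_mem_erase (Finset.mem_of_mem_erase hj)
              exact hoff j q2 q1
          _ = (2 * A) ^ (k - 2) := by
              rw [Finset.prod_const, Finset.card_erase_of_mem hne,
                Finset.card_erase_of_mem (Finset.mem_univ _), Finset.card_univ, Fintype.card_fin]
              rfl
      have hk : 2 ≤ k := by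
        have h8 : (Finset.card ({r0.1.1, r0.1.2} : Finset (Fin k))) ≤ Fintype.card (Fin k) :=
          Finset.card_le_univ _
        rw [Finset.card_pair hab, Fintype.card_fin] at h8
        exact h8
      have h9 : (A + n * a) * (A + n * b) ≤ (2 * A) ^ 2 *
          (1 + n ^ 2 * p / A + 2 * (n * p ^ 2) / A + n ^ 2 * p ^ 2 / A ^ 2) := by
        have h10 : (A + n * a) * (A + n * b) ≤ A ^ 2 + 2 * A * (n * p ^ 2) + n ^ 2 * p ^ 2 := by
          have t1 : A * (n * a) ≤ A * (n * p ^ 2) := by gcongr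
          have t2 : A * (n * b) ≤ A * (n * p ^ 2) := by gcongr
          have t3 : n ^ 2 * (a * b) ≤ n ^ 2 * p ^ 2 := by gcongr
          nlinarith
        have h11 : A ^ 2 + 2 * A * (n * p ^ 2) + n ^ 2 * p ^ 2 =
            A ^ 2 * (1 + 2 * (n * p ^ 2) / A + n ^ 2 * p ^ 2 / A ^ 2) := by
          field_simp
        rw [h11] at h10
        have q1 : 0 ≤ n ^ 2 * p / A := by positivity
        have q2 : 0 ≤ 2 * (n * p ^ 2) / A := by positivity
        have q3 : 0 ≤ n ^ 2 * p ^ 2 / A ^ 2 := by positivity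
        refine h10.trans (mul_le_mul ?_ (by linarith) (by positivity) (by positivity))
        nlinarith
      rw [e1, e2]
      calc (A + n * a) * ((A + n * b) * ∏ j ∈ ((Finset.univ : Finset (Fin k)).erase r0.1.1).erase r0.1.2,
            (A + ((EE g j : ℕ) : ℝ))) =
            ((A + n * a) * (A + n * b)) * ∏ j ∈ ((Finset.univ : Finset (Fin k)).erase r0.1.1).erase r0.1.2,
            (A + ((EE g j : ℕ) : ℝ)) := by ring
        _ ≤ ((2 * A) ^ 2 * (1 + n ^ 2 * p / A + 2 * (n * p ^ 2) / A + n ^ 2 * p ^ 2 / A ^ 2)) *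
            (2 * A) ^ (k - 2) := by
            refine mul_le_mul h9 h7 (Finset.prod_nonneg fun _ _ => by positivity) (by positivity)
        _ = (2 * A) ^ 2 * (2 * A) ^ (k - 2) *
            (1 + n ^ 2 * p / A + 2 * (n * p ^ 2) / A + n ^ 2 * p ^ 2 / A ^ 2) := by ring
        _ = _ := by
            rw [← pow_add, Nat.add_sub_cancel' hk]
  have hinv : ∏ r, ((g r : ℝ))⁻¹ = (n * p)⁻¹ := by
    rw [Finset.prod_inv_distrib, hprod]
  rw [hprod, hinv]
  calc (n * p)⁻¹ ^ 2 * ∏ j, (A + ((EE g j : ℕ) : ℝ)) ≤ (n * p)⁻¹ ^ 2 *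
        ((2 * A) ^ k * (1 + n ^ 2 * p / A + 2 * (n * p ^ 2) / A + n ^ 2 * p ^ 2 / A ^ 2)) :=
        mul_le_mul_of_nonneg_left hK (by positivity)
    _ = (2 * A) ^ k * ((n * p)⁻¹ + n / A + 2 * p / A + n * p / A ^ 2) * (n * p)⁻¹ := by
        field_simp
    _ ≤ (2 * A) ^ k * (1 / V + 1 / V + 2 * (1 / V) + 1 / V) * (n * p)⁻¹ := by
        have hAV : (V : ℝ) / A ≤ 1 / V := by
          rw [div_le_div_iff₀ hA0 hV0]
          nlinarith
        have t1 : (n * p)⁻¹ ≤ 1 / V := by
          rw [inv_eq_one_div]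
          exact one_div_le_one_div_of_le hV0 hnp
        have t2 : n / A ≤ 1 / V := (div_le_div_of_nonneg_right hnV hA0.le).trans hAV
        have t3 : 2 * p / A ≤ 2 * (1 / V) := by
          have := (div_le_div_of_nonneg_right hpV hA0.le).trans hAV
          rw [mul_div_assoc]
          linarith
        have t4 : n * p / A ^ 2 ≤ 1 / V := by
          have s1 : n * p / A ^ 2 ≤ (V : ℝ) ^ 2 / A ^ 2 := by
            refine div_le_div_of_nonneg_right ?_ (by positivity)
            nlinarith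
          have s2 : (V : ℝ) ^ 2 / A ^ 2 ≤ 1 / V := by
            rw [← _root_.div_pow]
            calc ((V : ℝ) / A) ^ 2 ≤ (1 / V) ^ 2 := pow_le_pow_left₀ (by positivity) hAV 2
              _ = (1 / V) * (1 / V) := sq _
              _ ≤ 1 * (1 / V) := by
                  refine mul_le_mul_of_nonneg_right ?_ (by positivity)
                  rw [div_le_one hV0]
                  exact hV1
              _ = 1 / V := one_mul _
          exact s1.trans s2
        gcongr
    _ = (2 * A) ^ k * (5 / V) * (n * p)⁻¹ := by ring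

end

end Pool.Agent.H681.QF.P
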