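import Pool.Graph.R_pool_sql_team_seeded_1acbe0a2.Y532.QF.Pl3
import Pool.Graph.R_pool_sql_team_seeded_1acbe0a2.Y832.QF.Ar

set_option autoImplicit false

/-!
Project QF: the box sums of two different lengths, in mean square over the shifts.
-/

namespace Pool.Agent.H681.QF

open MeasureTheory Set Filter Complex Topology
open Pool.Agent.TH612.GS (mP)
open Pool.Agent.Y752.QF
open Pool.Agent.Y532.QF

noncomputable section

/-- the coefficients of the box sums -/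
def co {k : ℕ} (n : Fin k → ℕ) : ℂ :=
  ((if IsSquare (∏ j, n j) then hw (∏ j, n j) else 0 : ℝ) : ℂ) * ∏ j, (n j : ℂ) ^ (-(1 / 2) : ℂ)

lemma DS_eq {k : ℕ} (Y : ℕ) (γ : Fin k → ℝ) :
    DS Y γ = ∑ n ∈ Fintype.piFinset (fun _ : Fin k => Finset.Icc 1 Y), co n * ∏ j, chs (n j) (γ j) := by
  unfold DS co
  refine Finset.sum_congr rfl fun n hn => ?_
  have hpw : ∏ j, (n j : ℂ) ^ (-(1 / 2 + I * (γ j : ℂ))) =
        (∏ j, (n j : ℂ) ^ (-(1 / 2) : ℂ)) * ∏ j, chs (n j) (γ j) := by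
    rw [← Finset.prod_mul_distrib]
    refine Finset.prod_congr rfl fun j _ => ?_
    have hj := (Finset.mem_Icc.1 (Fintype.mem_piFinset.1 hn j)).1
    have hj0 : (n j : ℂ) ≠ 0 := by exact_mod_cast (by omega : n j ≠ 0)
    unfold chs
    rw [neg_add, Complex.cpow_add _ _ hj0]
  rw [hpw]
  ring

lemma DS_sub {k : ℕ} {Y Z : ℕ} (h : Y ≤ Z) (γ : Fin k → ℝ) :
    DS Z γ - DS Y γ = ∑ n ∈ Fintype.piFinset (fun _ : Fin k => Finset.Icc 1 Z) \
      Fintype.piFinset (fun _ : Fin k => Finset.Icc 1 Y), co n * ∏ j, chs (n j) (γ j) := by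
  rw [DS_eq, DS_eq, sub_eq_iff_eq_add, Finset.sum_sdiff]
  intro n hn
  rw [Fintype.mem_piFinset] at hn ⊢
  intro i
  have := Finset.mem_Icc.1 (hn i)
  exact Finset.mem_Icc.2 ⟨this.1, this.2.trans h⟩

lemma co_norm {k : ℕ} (n : Fin k → ℕ) (hn : ∀ j, 1 ≤ n j) :
    ‖co n‖ ^ 2 ≤ if IsSquare (∏ j, n j) then ((∏ j, n j : ℕ) : ℝ)⁻¹ else 0 := by
  unfold co
  split_ifs with h
  · rw [norm_mul, mul_pow, norm_prod]
    have h1 : ∏ j, ‖(n j : ℂ) ^ (-(1 / 2) : ℂ)‖ ^ 2 = ((∏ j, n j : ℕ) : ℝ)⁻¹ := by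
      rw [Nat.cast_prod, ← Finset.prod_inv_distrib]
      refine Finset.prod_congr rfl fun j _ => ?_
      have hj0 : (0 : ℝ) < n j := by exact_mod_cast hn j
      rw [Complex.norm_natCast_cpow_of_pos (hn j)]
      have h1 : (-(1 / 2) : ℂ).re = -(1 / 2) := by norm_num
      rw [h1, ← Real.rpow_natCast, ← Real.rpow_mul hj0.le, ← Real.rpow_neg_one]
      congr 1
      norm_num
    rw [← Finset.prod_pow, h1]
    have h2 : ‖((hw (∏ j, n j) : ℝ) : ℂ)‖ ^ 2 ≤ 1 := by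
      rw [Complex.norm_real, Real.norm_of_nonneg (Pool.Agent.Y832.QF.hw_nonneg _)]
      exact pow_le_one₀ (Pool.Agent.Y832.QF.hw_nonneg _) (Pool.Agent.Y832.QF.hw_le_one _)
    have h3 : (0 : ℝ) ≤ ((∏ j, n j : ℕ) : ℝ)⁻¹ := by positivity
    calc _ ≤ 1 * ((∏ j, n j : ℕ) : ℝ)⁻¹ := mul_le_mul_of_nonneg_right h2 h3
      _ = _ := one_mul _
  · simp

/-- the sum of the coefficients outside of a box -/
theorem co_tail (k : ℕ) : ∃ C : ℝ, 0 < C ∧ ∀ Y Z : ℕ, 1 ≤ Y → Y ≤ Z →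
    ∑ n ∈ Fintype.piFinset (fun _ : Fin k => Finset.Icc 1 Z) \
      Fintype.piFinset (fun _ : Fin k => Finset.Icc 1 Y), ‖co n‖ ^ 2 ≤ C * (Y : ℝ) ^ (-(1 / 8) : ℝ) := by
  classical
  set δ : ℝ := 1 / (16 * (k + 1)) with hδ
  have hδ0 : 0 < δ := by positivity
  obtain ⟨C3, hC3, hdiv⟩ := Pool.Agent.H510R2.divisor_bound δ hδ0
  have hsum : Summable fun m : ℕ => (m : ℝ) ^ (-(13 / 8) : ℝ) :=
    Real.summable_nat_rpow.2 (by norm_num)
  set S : ℝ := ∑' m : ℕ, (m : ℝ) ^ (-(13 / 8) : ℝ) with hS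
  have hS0 : 0 ≤ S := tsum_nonneg fun m => by positivity
  refine ⟨C3 ^ k * (S + 1), by positivity, ?_⟩
  intro Y Z hY hYZ
  have hY0 : (0 : ℝ) < Y := by exact_mod_cast hY
  set sZ := Fintype.piFinset (fun _ : Fin k => Finset.Icc 1 Z) with hsZ
  set sY := Fintype.piFinset (fun _ : Fin k => Finset.Icc 1 Y) with hsY
  have hpos : ∀ n ∈ sZ, ∀ j, 1 ≤ n j := fun n hn j => (Finset.mem_Icc.1 (Fintype.mem_piFinset.1 hn j)).1
  have hppos : ∀ n ∈ sZ, 1 ≤ ∏ j, n j := by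
    intro n hn
    have h : 0 < ∏ j, n j := Finset.prod_pos fun j _ => hpos n hn j
    exact h
  set f : ℕ → ℝ := fun P => if IsSquare P then (P : ℝ) ^ (-(7 / 8) : ℝ) else 0 with hf
  have hf0 : ∀ P, 0 ≤ f P := by
    intro P
    rw [hf]
    dsimp only
    split_ifs <;> positivity
  -- outside of the box the product is large
  have h1 : ∀ n ∈ sZ \ sY, ‖co n‖ ^ 2 ≤ (Y : ℝ) ^ (-(1 / 8) : ℝ) * f (∏ j, n j) := by
    intro n hn
    rw [Finset.mem_sdiff] at hn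
    have hn1 := hpos n hn.1
    refine (co_norm n hn1).trans ?_
    rw [hf]
    dsimp only
    split_ifs with hsq
    · have hlt : Y < ∏ j, n j := by
        by_contra hcon
        apply hn.2
        rw [hsY, Fintype.mem_piFinset]
        intro j
        rw [Finset.mem_Icc]
        refine ⟨hn1 j, le_trans ?_ (not_lt.1 hcon)⟩
        exact Nat.le_of_dvd (hppos n hn.1) (Finset.dvd_prod_of_mem n (Finset.mem_univ j))
      have hP0 : (0 : ℝ) < ((∏ j, n j : ℕ) : ℝ) := by exact_mod_cast hppos n hn.1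
      have hYP : (Y : ℝ) ≤ ((∏ j, n j : ℕ) : ℝ) := by exact_mod_cast hlt.le
      have e1 : (((∏ j, n j : ℕ) : ℝ))⁻¹ = ((∏ j, n j : ℕ) : ℝ) ^ (-(1 / 8) : ℝ) *
          ((∏ j, n j : ℕ) : ℝ) ^ (-(7 / 8) : ℝ) := by
        rw [← Real.rpow_add hP0, ← Real.rpow_neg_one]
        norm_num
      rw [e1]
      refine mul_le_mul_of_nonneg_right ?_ (by positivity)
      exact Real.rpow_le_rpow_of_nonpos hY0 hYP (by norm_num)
    · simp
  refine (Finset.sum_le_sum h1).trans ?_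
  rw [← Finset.mul_sum, mul_comm]
  refine mul_le_mul_of_nonneg_right ?_ (by positivity)
  -- all tuples
  have h2 : ∑ n ∈ sZ \ sY, f (∏ j, n j) ≤ ∑ n ∈ sZ, f (∏ j, n j) :=
    Finset.sum_le_sum_of_subset_of_nonneg Finset.sdiff_subset fun n _ _ => hf0 _
  refine h2.trans ?_
  have hmaps : ∀ n ∈ sZ, (∏ j, n j) ∈ Finset.Icc 1 (Z ^ k) := by
    intro n hn
    rw [Finset.mem_Icc]
    refine ⟨hppos n hn, ?_⟩
    calc ∏ j, n j ≤ ∏ _j : Fin k, Z := Finset.prod_le_prod' fun j _ =>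
          (Finset.mem_Icc.1 (Fintype.mem_piFinset.1 hn j)).2
      _ = Z ^ k := by simp
  rw [← Finset.sum_fiberwise_of_maps_to hmaps]
  have hfib : ∀ m ∈ Finset.Icc 1 (Z ^ k), ∑ n ∈ sZ.filter (fun n => ∏ j, n j = m), f (∏ j, n j) ≤
      C3 ^ k * (if IsSquare m then (m : ℝ) ^ (-(13 / 16) : ℝ) else 0) := by
    intro m hm
    obtain ⟨hm1, hm2⟩ := Finset.mem_Icc.1 hm
    have hm0 : (0 : ℝ) < m := by exact_mod_cast hm1
    have e1 : ∀ n ∈ sZ.filter (fun n => ∏ j, n j = m), f (∏ j, n j) = f m := by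
      intro n hn
      rw [(Finset.mem_filter.1 hn).2]
    rw [Finset.sum_congr rfl e1, Finset.sum_const, nsmul_eq_mul]
    have e2 : (sZ.filter (fun n => ∏ j, n j = m)).card ≤ m.divisors.card ^ k := by
      have e3 : sZ.filter (fun n => ∏ j, n j = m) ⊆ Fintype.piFinset (fun _ : Fin k => m.divisors) := by
        intro n hn
        rw [Fintype.mem_piFinset]
        intro j
        rw [Nat.mem_divisors]
        refine ⟨?_, by omega⟩
        rw [← (Finset.mem_filter.1 hn).2]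
        exact Finset.dvd_prod_of_mem n (Finset.mem_univ j)
      refine (Finset.card_le_card e3).trans ?_
      rw [Fintype.card_piFinset]
      simp
    have e4 : ((sZ.filter (fun n => ∏ j, n j = m)).card : ℝ) ≤ C3 ^ k * (m : ℝ) ^ (1 / 16 : ℝ) := by
      calc ((sZ.filter (fun n => ∏ j, n j = m)).card : ℝ) ≤ (m.divisors.card : ℝ) ^ k := by
            exact_mod_cast e2
        _ ≤ (C3 * (m : ℝ) ^ δ) ^ k := pow_le_pow_left₀ (by positivity) (hdiv m hm1) k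
        _ = C3 ^ k * (m : ℝ) ^ (δ * k) := by
            rw [mul_pow, ← Real.rpow_natCast ((m : ℝ) ^ δ), ← Real.rpow_mul hm0.le]
        _ ≤ C3 ^ k * (m : ℝ) ^ (1 / 16 : ℝ) := by
            refine mul_le_mul_of_nonneg_left ?_ (by positivity)
            refine Real.rpow_le_rpow_of_exponent_le (by exact_mod_cast hm1) ?_
            rw [hδ, div_mul_eq_mul_div, one_mul, div_le_div_iff₀ (by positivity) (by norm_num)]
            linarith
    rw [hf]
    dsimp only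
    split_ifs with hsq
    · calc ((sZ.filter (fun n => ∏ j, n j = m)).card : ℝ) * (m : ℝ) ^ (-(7 / 8) : ℝ) ≤
            C3 ^ k * (m : ℝ) ^ (1 / 16 : ℝ) * (m : ℝ) ^ (-(7 / 8) : ℝ) := by gcongr
        _ = C3 ^ k * (m : ℝ) ^ (-(13 / 16) : ℝ) := by
            rw [mul_assoc, ← Real.rpow_add hm0]
            norm_num
    · simp
  refine (Finset.sum_le_sum hfib).trans ?_
  rw [← Finset.mul_sum]
  refine mul_le_mul_of_nonneg_left ?_ (by positivity)
  -- squares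
  have h3 : ∑ m ∈ Finset.Icc 1 (Z ^ k), (if IsSquare m then (m : ℝ) ^ (-(13 / 16) : ℝ) else 0) ≤
      ∑ r ∈ Finset.Icc 1 (Z ^ k), (r : ℝ) ^ (-(13 / 8) : ℝ) := by
    rw [← Finset.sum_filter]
    have hsub : (Finset.Icc 1 (Z ^ k)).filter IsSquare ⊆ (Finset.Icc 1 (Z ^ k)).image (fun r => r * r) := by
      intro m hm
      rw [Finset.mem_filter, Finset.mem_Icc] at hm
      obtain ⟨⟨h1, h2⟩, r, rfl⟩ := hm
      rw [Finset.mem_image]
      refine ⟨r, Finset.mem_Icc.2 ⟨?_, ?_⟩, rfl⟩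
      · rcases Nat.eq_zero_or_pos r with h | h
        · subst h; simp at h1
        · exact h
      · exact le_trans (Nat.le_mul_self r) h2
    refine (Finset.sum_le_sum_of_subset_of_nonneg hsub fun m _ _ => by positivity).trans ?_
    rw [Finset.sum_image]
    · refine Finset.sum_le_sum fun r hr => le_of_eq ?_
      have hr0 : (0 : ℝ) < r := by exact_mod_cast (Finset.mem_Icc.1 hr).1
      push_cast
      rw [Real.mul_rpow hr0.le hr0.le, ← Real.rpow_add hr0]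
      norm_num
    · intro a _ b _ hab
      exact Nat.mul_self_inj.1 hab
  refine h3.trans ?_
  have h4 : ∑ r ∈ Finset.Icc 1 (Z ^ k), (r : ℝ) ^ (-(13 / 8) : ℝ) ≤ S :=
    hsum.sum_le_tsum _ fun r _ => by positivity
  linarith

/-- box sums of two lengths, all sign patterns -/
theorem tail (k : ℕ) : ∃ C : ℝ, 0 < C ∧ ∀ (σ : Fin k → Bool) (H : ℝ) (Y : ℕ), 1 ≤ Y → (Y : ℝ) ≤ H →
    ∫⁻ γ, ENNReal.ofReal (‖DS ⌊H⌋₊ (sv σ γ) - DS Y (sv σ γ)‖ ^ 2) ∂(mP (Fin k) H) ≤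
      ENNReal.ofReal (C * H ^ k * (Y : ℝ) ^ (-(1 / 8) : ℝ)) := by
  classical
  obtain ⟨C1, hC1, hMV⟩ := Pool.Agent.TH928.GS.t_MV
  obtain ⟨C2, hC2, h2⟩ := co_tail k
  refine ⟨(2 * C1) ^ k * C2, by positivity, ?_⟩
  intro σ H Y hY hYH
  have hY1 : (1 : ℝ) ≤ Y := by exact_mod_cast hY
  have hH : 1 ≤ H := hY1.trans hYH
  have hH0 : 0 < H := by linarith
  have hYZ : Y ≤ ⌊H⌋₊ := Nat.le_floor hYH
  have hZH : (⌊H⌋₊ : ℝ) ≤ H := Nat.floor_le hH0.le
  simp_rw [DS_sub hYZ]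
  refine (P3.tlss hC1 hMV hH k σ _ (fun n => n) _ 1 ?_ ?_).trans (ENNReal.ofReal_le_ofReal ?_)
  · intro n hn i
    have hj := Finset.mem_Icc.1 (Fintype.mem_piFinset.1 (Finset.mem_sdiff.1 hn).1 i)
    exact ⟨hj.1, le_trans (by exact_mod_cast hj.2) hZH⟩
  · intro n hn
    refine le_trans (Finset.card_le_card (t := {n}) ?_) (by simp)
    intro n' hn'
    rw [Finset.mem_singleton]
    exact (Finset.mem_filter.1 hn').2
  · calc (2 * C1 * H) ^ k * (((1 : ℕ) : ℝ) * ∑ n ∈ Fintype.piFinset (fun _ : Fin k => Finset.Icc 1 ⌊H⌋₊) \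
          Fintype.piFinset (fun _ : Fin k => Finset.Icc 1 Y), ‖co n‖ ^ 2) ≤
          (2 * C1 * H) ^ k * (((1 : ℕ) : ℝ) * (C2 * (Y : ℝ) ^ (-(1 / 8) : ℝ))) := by
          gcongr
          exact h2 Y ⌊H⌋₊ hY hYZ
      _ = _ := by
          rw [mul_pow]
          push_cast
          ring

end

end Pool.Agent.H681.QF
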