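import Pool.Graph.R_pool_sql_team_seeded_1acbe0a2.Y532.QF.Pl3
import Pool.Graph.R_pool_sql_team_seeded_63374d34.N879.QM.Tel

set_option autoImplicit false

/-!
Project QF: the mean value theorem in several variables with the weights `∏ (H + N_j)`, on the cube `[-H,H]^k`.
-/

namespace Pool.Agent.H681.QF.W

open MeasureTheory Set Filter Complex
open Pool.Agent.N879.QM (mS)
open Pool.Agent.N879.QM.Tel (lint_prod lint1 mor)
open Pool.Agent.Y532.QF (chs chs_cont csum sum_cont)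
open Pool.Agent.Y532.QF.P3 (chs_conj)

noncomputable section

/-- one variable -/
lemma ls1S {C1 : ℝ} (hMV : ∀ (T : ℝ) (X : ℕ) (a : ℕ → ℂ), 1 ≤ T → (X : ℝ) ≤ T ^ 2 →
      ∫ u in (0:ℝ)..(2 * T), ‖∑ n ∈ Finset.Icc 1 X, a n * (n : ℂ) ^ (-(I * u))‖ ^ 2 ≤
        C1 * ∑ n ∈ Finset.Icc 1 X, (T + n) * ‖a n‖ ^ 2)
    {H : ℝ} (hH : 1 ≤ H) {X : ℕ} (hX : (X : ℝ) ≤ H ^ 2) (a : ℕ → ℂ) :
    ∫⁻ y, ENNReal.ofReal (‖∑ n ∈ Finset.Icc 1 X, a n * chs n y‖ ^ 2) ∂(volume.restrict (Icc (-H) H)) ≤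
      ENNReal.ofReal (2 * C1 * ∑ n ∈ Finset.Icc 1 X, (H + n) * ‖a n‖ ^ 2) := by
  have hH0 : 0 < H := by linarith
  have hcg : ∀ b : ℕ → ℂ, Continuous fun y : ℝ => ‖∑ n ∈ Finset.Icc 1 X, b n * chs n y‖ ^ 2 := by
    intro b
    refine Continuous.pow (Continuous.norm ?_) 2
    apply continuous_finsetSum
    intro n hn
    exact (chs_cont (Finset.mem_Icc.1 hn).1).const_mul _
  have key : ∀ b : ℕ → ℂ, ∫ y in (0:ℝ)..H, ‖∑ n ∈ Finset.Icc 1 X, b n * chs n y‖ ^ 2 ≤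
      C1 * ∑ n ∈ Finset.Icc 1 X, (H + n) * ‖b n‖ ^ 2 := by
    intro b
    have h1 : ∫ y in (0:ℝ)..H, ‖∑ n ∈ Finset.Icc 1 X, b n * chs n y‖ ^ 2 ≤
        ∫ y in (0:ℝ)..(2 * H), ‖∑ n ∈ Finset.Icc 1 X, b n * chs n y‖ ^ 2 :=
      intervalIntegral.integral_mono_interval le_rfl hH0.le (by linarith)
        (Eventually.of_forall fun _ => by positivity) ((hcg b).intervalIntegrable _ _)
    exact h1.trans (hMV H X b hH hX)
  rw [lint1 (by linarith) (hcg a) fun y => by positivity]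
  refine ENNReal.ofReal_le_ofReal ?_
  rw [← intervalIntegral.integral_add_adjacent_intervals (b := 0) ((hcg a).intervalIntegrable _ _)
    ((hcg a).intervalIntegrable _ _)]
  have h2 : ∫ y in (-H)..0, ‖∑ n ∈ Finset.Icc 1 X, a n * chs n y‖ ^ 2 =
      ∫ y in (0:ℝ)..H, ‖∑ n ∈ Finset.Icc 1 X, (starRingEnd ℂ) (a n) * chs n y‖ ^ 2 := by
    have h3 : ∀ y : ℝ, ‖∑ n ∈ Finset.Icc 1 X, (starRingEnd ℂ) (a n) * chs n y‖ =
        ‖∑ n ∈ Finset.Icc 1 X, a n * chs n (-y)‖ := by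
      intro y
      rw [← RCLike.norm_conj (∑ n ∈ Finset.Icc 1 X, a n * chs n (-y)), map_sum]
      congr 1
      refine Finset.sum_congr rfl fun n _ => ?_
      rw [map_mul, ← chs_conj, neg_neg]
    simp_rw [h3]
    have h4 := intervalIntegral.integral_comp_neg (a := 0) (b := H)
      (fun y : ℝ => ‖∑ n ∈ Finset.Icc 1 X, a n * chs n y‖ ^ 2)
    rw [neg_zero] at h4
    exact h4.symm
  have k1 := key a
  have k2 := key (fun n => (starRingEnd ℂ) (a n))
  simp only [RCLike.norm_conj] at k2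
  rw [h2]
  linarith

/-- several variables -/
theorem wmv {C1 : ℝ} (hC1 : 0 < C1) (hMV : ∀ (T : ℝ) (X : ℕ) (a : ℕ → ℂ), 1 ≤ T → (X : ℝ) ≤ T ^ 2 →
      ∫ u in (0:ℝ)..(2 * T), ‖∑ n ∈ Finset.Icc 1 X, a n * (n : ℂ) ^ (-(I * u))‖ ^ 2 ≤
        C1 * ∑ n ∈ Finset.Icc 1 X, (T + n) * ‖a n‖ ^ 2)
    {H : ℝ} (hH : 1 ≤ H) : ∀ (m : ℕ) {κ : Type} (s : Finset κ)
    (N : κ → Fin m → ℕ) (c : κ → ℂ) (D : ℕ), (∀ q ∈ s, ∀ i, 1 ≤ N q i ∧ (N q i : ℝ) ≤ H ^ 2) →
    (∀ q ∈ s, (s.filter fun q' => N q' = N q).card ≤ D) →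
    ∫⁻ γ, ENNReal.ofReal (‖∑ q ∈ s, c q * ∏ i, chs (N q i) (γ i)‖ ^ 2) ∂(mS m H) ≤
      ENNReal.ofReal ((2 * C1) ^ m * (D * ∑ q ∈ s, ‖c q‖ ^ 2 * ∏ i, (H + N q i))) := by
  intro m
  have hH0 : 0 < H := by linarith
  induction m with
  | zero =>
    intro κ s N c D hN hD
    have hcard : s.card ≤ D := by
      rcases s.eq_empty_or_nonempty with h | ⟨q, hq⟩
      · rw [h]; simp
      · refine le_trans (le_of_eq ?_) (hD q hq)
        congr 1
        rw [Finset.filter_true_of_mem]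
        intro q' _
        exact Subsingleton.elim _ _
    have h1 : ∀ γ : Fin 0 → ℝ, ENNReal.ofReal (‖∑ q ∈ s, c q * ∏ i, chs (N q i) (γ i)‖ ^ 2) ≤
        ENNReal.ofReal ((2 * C1) ^ 0 * (D * ∑ q ∈ s, ‖c q‖ ^ 2 * ∏ i, (H + N q i))) := by
      intro γ
      refine ENNReal.ofReal_le_ofReal ?_
      simp only [Finset.univ_eq_empty, Finset.prod_empty, mul_one, pow_zero, one_mul]
      refine (csum s c).trans ?_
      have : (s.card : ℝ) ≤ D := by exact_mod_cast hcard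
      gcongr
    refine (lintegral_mono h1).trans ?_
    rw [lintegral_const]
    simp [mS, Measure.pi_empty_univ]
  | succ m ih =>
    intro κ s N c D hN hD
    classical
    set X : ℕ := ⌊H ^ 2⌋₊ with hX
    have hXH2 : (X : ℝ) ≤ H ^ 2 := Nat.floor_le (by positivity)
    set A : ℕ → (Fin m → ℝ) → ℂ := fun n γ => ∑ q ∈ s.filter (fun q => N q 0 = n), c q *
      ∏ i : Fin m, chs (N q i.succ) (γ i) with hA
    have hc := sum_cont s N c fun q hq i => (hN q hq i).1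
    rw [lint_prod H _ (mor hc)]
    have hcc : Continuous fun p : ℝ × (Fin m → ℝ) => (Fin.cons p.1 p.2 : Fin (m + 1) → ℝ) :=
      Continuous.finCons (A := fun _ => ℝ) continuous_fst continuous_snd
    have hcomp : Continuous fun p : ℝ × (Fin m → ℝ) => ‖∑ q ∈ s, c q *
        ∏ i, chs (N q i) ((Fin.cons p.1 p.2 : Fin (m + 1) → ℝ) i)‖ ^ 2 := hc.comp hcc
    rw [lintegral_prod_symm _ (mor hcomp).aemeasurable]
    have hcA : ∀ n, Continuous fun γ : Fin m → ℝ => ‖A n γ‖ ^ 2 := fun n =>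
      sum_cont (s.filter fun q => N q 0 = n) (fun q i => N q i.succ) c
        fun q hq i => (hN q (Finset.mem_filter.1 hq).1 i.succ).1
    have hmaps : ∀ q ∈ s, N q 0 ∈ Finset.Icc 1 X := fun q hq => by
      rw [Finset.mem_Icc]
      exact ⟨(hN q hq 0).1, Nat.le_floor (hN q hq 0).2⟩
    have e1 : ∀ γ : Fin m → ℝ, ∫⁻ y, ENNReal.ofReal (‖∑ q ∈ s, c q *
        ∏ i, chs (N q i) ((Fin.cons y γ : Fin (m + 1) → ℝ) i)‖ ^ 2)
          ∂(volume.restrict (Icc (-H) H)) ≤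
        ∑ n ∈ Finset.Icc 1 X, ENNReal.ofReal (2 * C1 * (H + n)) * ENNReal.ofReal (‖A n γ‖ ^ 2) := by
      intro γ
      have e2 : ∀ y : ℝ, ∑ q ∈ s, c q * ∏ i, chs (N q i) ((Fin.cons y γ : Fin (m + 1) → ℝ) i) =
          ∑ n ∈ Finset.Icc 1 X, A n γ * chs n y := by
        intro y
        rw [← Finset.sum_fiberwise_of_maps_to hmaps]
        refine Finset.sum_congr rfl fun n _ => ?_
        rw [hA]
        simp only
        rw [Finset.sum_mul]
        refine Finset.sum_congr rfl fun q hq => ?_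
        rw [Fin.prod_univ_succ]
        simp only [Fin.cons_zero, Fin.cons_succ]
        rw [(Finset.mem_filter.1 hq).2]
        ring
      simp only [e2]
      refine (ls1S hMV hH hXH2 (fun n => A n γ)).trans (le_of_eq ?_)
      rw [Finset.mul_sum, ENNReal.ofReal_sum_of_nonneg fun n _ => by positivity]
      refine Finset.sum_congr rfl fun n _ => ?_
      rw [← ENNReal.ofReal_mul (by positivity)]
      congr 1
      ring
    refine (lintegral_mono e1).trans ?_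
    rw [lintegral_finsetSum _ fun n _ => (mor (hcA n)).const_mul _]
    have e3 : ∀ n ∈ Finset.Icc 1 X, ∫⁻ γ, ENNReal.ofReal (2 * C1 * (H + n)) *
          ENNReal.ofReal (‖A n γ‖ ^ 2) ∂(mS m H) ≤
        ENNReal.ofReal ((2 * C1) ^ (m + 1) * (D * ∑ q ∈ s.filter (fun q => N q 0 = n), ‖c q‖ ^ 2 *
          ∏ i, (H + N q i))) := by
      intro n _
      rw [lintegral_const_mul' _ _ ENNReal.ofReal_ne_top]
      have h5 := ih (s.filter fun q => N q 0 = n) (fun q i => N q i.succ) c D ?_ ?_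
      · refine (mul_le_mul' le_rfl h5).trans (le_of_eq ?_)
        rw [← ENNReal.ofReal_mul (by positivity)]
        congr 1
        have e4 : ∑ q ∈ s.filter (fun q => N q 0 = n), ‖c q‖ ^ 2 * ∏ i, (H + N q i) =
            (H + n) * ∑ q ∈ s.filter (fun q => N q 0 = n), ‖c q‖ ^ 2 * ∏ i : Fin m, (H + N q i.succ) := by
          rw [Finset.mul_sum]
          refine Finset.sum_congr rfl fun q hq => ?_
          rw [Fin.prod_univ_succ, (Finset.mem_filter.1 hq).2]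
          ring
        rw [e4]
        ring
      · intro q hq i
        exact hN q (Finset.mem_filter.1 hq).1 i.succ
      · intro q hq
        refine le_trans (Finset.card_le_card ?_) (hD q (Finset.mem_filter.1 hq).1)
        intro q' hq'
        rw [Finset.mem_filter, Finset.mem_filter] at hq'
        rw [Finset.mem_filter]
        refine ⟨hq'.1.1, funext fun i => ?_⟩
        refine Fin.cases ?_ (fun j => ?_) i
        · rw [hq'.1.2, (Finset.mem_filter.1 hq).2]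
        · exact congrFun hq'.2 j
    refine (Finset.sum_le_sum e3).trans ?_
    rw [← ENNReal.ofReal_sum_of_nonneg fun n _ => by positivity]
    refine ENNReal.ofReal_le_ofReal (le_of_eq ?_)
    rw [← Finset.mul_sum, ← Finset.mul_sum, Finset.sum_fiberwise_of_maps_to hmaps]

end

end Pool.Agent.H681.QF.W
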